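import Mathlib

/-!
PROOF of `exists_elim`: `q = Q.comap C`. There are elements of `Q` not in `q.map C`; let `d` be
the least `natDegree` of such an element. Let `g ∈ Q`, `g ∉ q.map C`, `g.natDegree ≤ d` (so `= d`).
Its leading coefficient `a` is not in `q`: otherwise `g - C a * X ^ d` (= `g.eraseLead`) is in `Q`
and has smaller degree (or is zero), so it is in `q.map C`, and so is `g`. Let `Q'` be a prime with
`g ∈ Q'`, `Q'.comap C = q`. Claim: every `h ∈ Q` is in `Q'`, by strong induction on
`h.natDegree`: if `h ∈ q.map C`, clear. Otherwise `h.natDegree ≥ d`, and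
`h' = C a * h - C h.leadingCoeff * X ^ (h.natDegree - d) * g` is in `Q` and is zero or has smaller
natDegree (if `h.natDegree = 0` then `d = 0`, both `h` and `g` are constants, in `Q`, so in
`q.map C`: excluded; in general `d > 0` for this reason). So `h' ∈ Q'`, `C a * h ∈ Q'`,
`C a ∉ Q'`, so `h ∈ Q'`.
-/

namespace Pool.Agent.Helper41.PP

open Polynomial

theorem exists_elim {R : Type} [CommRing R] (Q : Ideal R[X]) [Q.IsPrime]
    (hne : Q ≠ (Q.comap (C : R →+* R[X])).map (C : R →+* R[X])) :
    ∃ d : ℕ, (∃ g ∈ Q, g ∉ (Q.comap (C : R →+* R[X])).map (C : R →+* R[X]) ∧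
        g.natDegree ≤ d) ∧
      ∀ g ∈ Q, g ∉ (Q.comap (C : R →+* R[X])).map (C : R →+* R[X]) → g.natDegree ≤ d →
        ∀ Q' : Ideal R[X], Q'.IsPrime → g ∈ Q' →
          Q'.comap (C : R →+* R[X]) = Q.comap (C : R →+* R[X]) → Q ≤ Q' := by
  classical
  obtain ⟨q, hq⟩ : ∃ q : Ideal R, q = Q.comap (C : R →+* R[X]) := ⟨_, rfl⟩
  rw [← hq] at hne ⊢
  have hle : q.map (C : R →+* R[X]) ≤ Q := by
    rw [hq]
    exact Ideal.map_comap_le
  have hconst : ∀ a : R, C a ∈ Q → C a ∈ q.map (C : R →+* R[X]) := by
    intro a ha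
    apply Ideal.mem_map_of_mem
    rw [hq]
    exact ha
  have hex : ∃ n : ℕ, ∃ g ∈ Q, g ∉ q.map (C : R →+* R[X]) ∧ g.natDegree = n := by
    by_contra hcon
    apply hne
    apply le_antisymm _ hle
    intro g hg
    by_contra hgn
    exact hcon ⟨g.natDegree, g, hg, hgn, rfl⟩
  obtain ⟨d, hd⟩ : ∃ d, d = Nat.find hex := ⟨_, rfl⟩
  obtain ⟨g₀, hg₀, hg₀n, hg₀d⟩ := Nat.find_spec hex
  rw [← hd] at hg₀d
  have hmin : ∀ g ∈ Q, g ∉ q.map (C : R →+* R[X]) → d ≤ g.natDegree := by
    intro g hg hgn
    rw [hd]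
    exact Nat.find_min' hex ⟨g, hg, hgn, rfl⟩
  have hdpos : 0 < d := by
    rcases Nat.eq_zero_or_pos d with h0 | h0
    · exfalso
      rw [h0] at hg₀d
      have h1 := eq_C_of_natDegree_eq_zero hg₀d
      rw [h1] at hg₀ hg₀n
      exact hg₀n (hconst _ hg₀)
    · exact h0
  refine ⟨d, ⟨g₀, hg₀, hg₀n, hg₀d.le⟩, ?_⟩
  intro g hg hgn hgd Q' hQ' hgQ' hcomap
  have hgd' : g.natDegree = d := le_antisymm hgd (hmin g hg hgn)
  have hleQ' : q.map (C : R →+* R[X]) ≤ Q' := by
    rw [← hcomap]
    exact Ideal.map_comap_le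
  have ha : g.leadingCoeff ∉ q := by
    intro ha
    have h1 : C g.leadingCoeff * X ^ g.natDegree ∈ q.map (C : R →+* R[X]) :=
      Ideal.mul_mem_right _ _ (Ideal.mem_map_of_mem _ ha)
    have h2 := eraseLead_add_C_mul_X_pow g
    have h3 : g.eraseLead ∈ Q := by
      have h4 : g.eraseLead = g - C g.leadingCoeff * X ^ g.natDegree := by
        rw [eq_sub_iff_add_eq]
        exact h2
      rw [h4]
      exact Ideal.sub_mem _ hg (hle h1)
    have h5 : g.eraseLead ∈ q.map (C : R →+* R[X]) := by
      by_contra h6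
      have h7 := hmin _ h3 h6
      rcases eraseLead_natDegree_lt_or_eraseLead_eq_zero g with h8 | h8
      · omega
      · rw [h8] at h6
        exact h6 (Ideal.zero_mem _)
    apply hgn
    rw [← h2]
    exact Ideal.add_mem _ h5 h1
  have haQ' : C g.leadingCoeff ∉ Q' := by
    intro h
    apply ha
    rw [← hcomap]
    exact h
  have key : ∀ n : ℕ, ∀ h ∈ Q, h.natDegree ≤ n → h ∈ Q' := by
    intro n
    induction n with
    | zero =>
      intro h hh hn
      have h1 := eq_C_of_natDegree_le_zero hn
      rw [h1] at hh ⊢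
      exact hleQ' (hconst _ hh)
    | succ n ih =>
      intro h hh hn
      by_cases hhq : h ∈ q.map (C : R →+* R[X])
      · exact hleQ' hhq
      have h1 := hmin h hh hhq
      have h2 : C g.leadingCoeff * h - C h.leadingCoeff * X ^ (h.natDegree - d) * g ∈ Q :=
        Ideal.sub_mem _ (Ideal.mul_mem_left _ _ hh) (Ideal.mul_mem_left _ _ hg)
      have h3 : (C g.leadingCoeff * h -
          C h.leadingCoeff * X ^ (h.natDegree - d) * g).natDegree ≤ h.natDegree := by
        refine (natDegree_sub_le _ _).trans (max_le ?_ ?_)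
        · exact natDegree_C_mul_le _ _
        · rw [mul_assoc]
          refine (natDegree_C_mul_le _ _).trans ?_
          refine natDegree_mul_le.trans ?_
          have h4 := natDegree_X_pow_le (R := R) (h.natDegree - d)
          omega
      have h4 : (C g.leadingCoeff * h -
          C h.leadingCoeff * X ^ (h.natDegree - d) * g).coeff h.natDegree = 0 := by
        rw [coeff_sub, coeff_C_mul, mul_assoc, coeff_C_mul]
        have h5 : (X ^ (h.natDegree - d) * g).coeff h.natDegree = g.leadingCoeff := by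
          have h6 : h.natDegree = d + (h.natDegree - d) := by omega
          conv_lhs => rw [h6]
          rw [add_tsub_cancel_left, coeff_X_pow_mul, ← hgd']
          rfl
        rw [h5]
        have h6 : h.coeff h.natDegree = h.leadingCoeff := rfl
        rw [h6]
        ring
      have h5 := natDegree_le_pred h3 h4
      have h6 := ih _ h2 (by omega)
      have h7 : C g.leadingCoeff * h ∈ Q' := by
        have h8 : C g.leadingCoeff * h = (C g.leadingCoeff * h -
            C h.leadingCoeff * X ^ (h.natDegree - d) * g) +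
            C h.leadingCoeff * X ^ (h.natDegree - d) * g := by ring
        rw [h8]
        exact Ideal.add_mem _ h6 (Ideal.mul_mem_left _ _ hgQ')
      exact (hQ'.mem_or_mem h7).resolve_left haQ'
  intro h hh
  exact key h.natDegree h hh le_rfl

end Pool.Agent.Helper41.PP
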