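import Mathlib

/-!
Homogeneous ideals of `MvPolynomial σ κ` for weights `w : σ → ℕ`; `HomId w I` says that `I`
contains the weighted homogeneous components of its elements.

PROOFS. `homId_iff`: `HomId w I ↔ I.IsHomogeneous (weightedHomogeneousSubmodule κ w)`; the
decomposition of the graded algebra `MvPolynomial.weightedGradedAlgebra` is given by
`weightedHomogeneousComponent` (`MvPolynomial.weightedDecomposition.decompose'_eq`,
`weightedGradedAlgebra.decompose'_apply` or similar).
`homId_core`: the homogeneous core of a prime is prime (`Ideal.IsPrime.homogeneousCore`,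
Mathlib/RingTheory/GradedAlgebra/Homogeneous/Ideal.lean and
Mathlib/RingTheory/GradedAlgebra/Radical.lean), and contains the homogeneous elements.
`homId_span`: an ideal generated by weighted homogeneous elements is homogeneous.
`exists_comp`: if `f ∉ I` then some component of `f` is not in `I`
(`sum_weightedHomogeneousComponent`, finsum/finset form).
-/

namespace Pool.Agent.Helper41.PP

open MvPolynomial

attribute [local instance] MvPolynomial.weightedGradedAlgebra

/-- A homogeneous ideal, for the weights `w`. -/
def HomId {σ : Type} {κ : Type} [Field κ] (w : σ → ℕ) (I : Ideal (MvPolynomial σ κ)) : Prop :=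
  ∀ f ∈ I, ∀ d : ℕ, weightedHomogeneousComponent w d f ∈ I

theorem homId_iff {σ : Type} {κ : Type} [Field κ] (w : σ → ℕ) (I : Ideal (MvPolynomial σ κ)) :
    HomId w I ↔ I.IsHomogeneous (weightedHomogeneousSubmodule κ w) := by
  constructor
  · intro h i f hf
    have h1 := h f hf i
    rw [← weightedDecomposition.decompose'_apply] at h1
    exact h1
  · intro h f hf d
    exact weightedHomogeneousComponent_mem_of_mem κ w h hf d

theorem homId_core {σ : Type} {κ : Type} [Field κ] (w : σ → ℕ) (P : Ideal (MvPolynomial σ κ))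
    [P.IsPrime] : ∃ Q : Ideal (MvPolynomial σ κ), Q.IsPrime ∧ HomId w Q ∧ Q ≤ P ∧
      ∀ f d, IsWeightedHomogeneous w f d → f ∈ P → f ∈ Q := by
  have hP : P.IsPrime := inferInstance
  refine ⟨(P.homogeneousCore (weightedHomogeneousSubmodule κ w)).toIdeal,
    hP.homogeneousCore, ?_, Ideal.toIdeal_homogeneousCore_le _ P, ?_⟩
  · rw [homId_iff]
    exact HomogeneousIdeal.isHomogeneous _
  · intro f d hf hfP
    exact Ideal.mem_homogeneousCore_of_homogeneous_of_mem ⟨d, hf⟩ hfP

theorem homId_span {σ : Type} {κ : Type} [Field κ] (w : σ → ℕ) (S : Set (MvPolynomial σ κ))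
    (hS : ∀ f ∈ S, ∃ d, IsWeightedHomogeneous w f d) : HomId w (Ideal.span S) := by
  rw [homId_iff]
  refine Ideal.homogeneous_span _ S ?_
  intro f hf
  obtain ⟨d, hd⟩ := hS f hf
  exact ⟨d, hd⟩

theorem exists_comp {σ : Type} {κ : Type} [Field κ] (w : σ → ℕ) (I : Ideal (MvPolynomial σ κ))
    (f : MvPolynomial σ κ) (hf : f ∉ I) : ∃ d, weightedHomogeneousComponent w d f ∉ I := by
  by_contra hc
  push Not at hc
  refine hf ?_
  rw [← sum_weightedHomogeneousComponent w f,
    finsum_eq_sum _ (weightedHomogeneousComponent_finsupp f)]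
  exact Ideal.sum_mem _ fun d _ => hc d

/-- If two prime ideals have the same homogeneous elements and both are homogeneous, they are
equal. -/
theorem homId_ext {σ : Type} {κ : Type} [Field κ] (w : σ → ℕ) (I J : Ideal (MvPolynomial σ κ))
    (hI : HomId w I) (hJ : ∀ f d, IsWeightedHomogeneous w f d → f ∈ I → f ∈ J) : I ≤ J := by
  intro f hf
  by_contra hfJ
  obtain ⟨d, hd⟩ := exists_comp w J f hfJ
  exact hd (hJ _ d (weightedHomogeneousComponent_isWeightedHomogeneous d f) (hI f hf d))

end Pool.Agent.Helper41.PP
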