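import Pool.Agent.Helper41.PP.Height
import Pool.Agent.Helper41.PP.Elim
import Pool.Agent.Helper41.PP.Hom

/-!
The inclusion `rn : MvPolynomial σ κ → MvPolynomial (Option σ) κ` is the inclusion of constants
in a polynomial ring in one variable (the variable `none`):
`MvPolynomial.optionEquivLeft κ σ : MvPolynomial (Option σ) κ ≃ₐ[κ] Polynomial (MvPolynomial σ κ)`,
`optionEquivLeft (rn f) = Polynomial.C f`, `optionEquivLeft (X none) = Polynomial.X`.

PROOFS. `rn_flat`: `MvPolynomial (Option σ) κ` is a free module over `MvPolynomial σ κ` (transport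
from `Polynomial`). `rn_prime`: `Ideal.isPrime_map_C_of_isPrime`. `rn_comap`: coefficients
(`Ideal.mem_map_C_iff`). `rn_height`: `height_poly` transported (`RingEquiv.height_comap`).

`rn_elim`: `Polynomial` version: `exists_elim` with the `d` given there. Take `g ∈ Q` not in
`(Q.comap rn).map rn` whose polynomial has `natDegree ≤ d`; some weighted homogeneous component
`g'` of `g` is not in `(Q.comap rn).map rn` (`exists_comp`), it is in `Q` (`hQ`), and its
`natDegree` is at most that of `g`: the support of a component is contained in the support of `g`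
(`natDegree` of `optionEquivLeft κ σ g` is `degreeOf none g`, `MvPolynomial.natDegree_optionEquivLeft`
or use `optionEquivLeft_coeff_coeff`).
-/

namespace Pool.Agent.Helper41.PP

open MvPolynomial

/-- The inclusion of polynomial rings. -/
noncomputable def rn (σ κ : Type) [Field κ] : MvPolynomial σ κ →+* MvPolynomial (Option σ) κ :=
  (rename (Option.some : σ → Option σ) : MvPolynomial σ κ →ₐ[κ] MvPolynomial (Option σ) κ).toRingHom

private lemma rn_apply (σ κ : Type) [Field κ] (f : MvPolynomial σ κ) :
    rn σ κ f = rename Option.some f := rfl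

/-- The identification with polynomials in the variable `none`. -/
private noncomputable def oe (σ κ : Type) [Field κ] :
    MvPolynomial (Option σ) κ ≃+* Polynomial (MvPolynomial σ κ) :=
  (optionEquivLeft κ σ).toRingEquiv

private lemma oe_apply (σ κ : Type) [Field κ] (f : MvPolynomial (Option σ) κ) :
    oe σ κ f = optionEquivLeft κ σ f := rfl

private lemma oe_rn (σ κ : Type) [Field κ] (f : MvPolynomial σ κ) :
    oe σ κ (rn σ κ f) = Polynomial.C f := by
  rw [oe_apply, rn_apply]
  induction f using MvPolynomial.induction_on with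
  | C a => rw [rename_C, optionEquivLeft_C]
  | add p q hp hq => rw [map_add, map_add, hp, hq, Polynomial.C_add]
  | mul_X p i hp => rw [map_mul, map_mul, hp, rename_X, optionEquivLeft_X_some, Polynomial.C_mul]

private lemma rn_eq_symm (σ κ : Type) [Field κ] (f : MvPolynomial σ κ) :
    rn σ κ f = (oe σ κ).symm (Polynomial.C f) := by
  rw [← oe_rn, RingEquiv.symm_apply_apply]

private lemma rn_comp_eq (σ κ : Type) [Field κ] :
    rn σ κ = ((oe σ κ).symm : Polynomial (MvPolynomial σ κ) →+* MvPolynomial (Option σ) κ).comp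
      (Polynomial.C : MvPolynomial σ κ →+* Polynomial (MvPolynomial σ κ)) := by
  apply RingHom.ext
  intro f
  exact rn_eq_symm σ κ f

/-- The ideal generated by the image, in terms of polynomials. -/
private lemma map_rn_eq (σ κ : Type) [Field κ] (q : Ideal (MvPolynomial σ κ)) :
    q.map (rn σ κ) = (q.map (Polynomial.C : MvPolynomial σ κ →+* _)).comap
      ((oe σ κ) : MvPolynomial (Option σ) κ →+* Polynomial (MvPolynomial σ κ)) := by
  rw [rn_comp_eq, ← Ideal.map_map]
  exact Ideal.map_symm (oe σ κ)

private lemma mem_map_rn (σ κ : Type) [Field κ] (q : Ideal (MvPolynomial σ κ))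
    (f : MvPolynomial (Option σ) κ) :
    f ∈ q.map (rn σ κ) ↔ oe σ κ f ∈ q.map (Polynomial.C : MvPolynomial σ κ →+* _) := by
  rw [map_rn_eq, Ideal.mem_comap]
  rfl

theorem rn_flat (σ κ : Type) [Field κ] : (rn σ κ).Flat := by
  rw [rn_comp_eq]
  refine RingHom.Flat.comp ?_ (RingHom.Flat.of_bijective (oe σ κ).symm.bijective)
  have : (algebraMap (MvPolynomial σ κ) (Polynomial (MvPolynomial σ κ))).Flat :=
    RingHom.flat_algebraMap_iff.2 inferInstance
  exact this

theorem rn_prime (σ κ : Type) [Field κ] (q : Ideal (MvPolynomial σ κ)) [q.IsPrime] :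
    (q.map (rn σ κ)).IsPrime := by
  rw [map_rn_eq]
  have := Ideal.isPrime_map_C_of_isPrime (P := q)
  exact Ideal.comap_isPrime _ _

theorem rn_comap (σ κ : Type) [Field κ] (q : Ideal (MvPolynomial σ κ)) :
    (q.map (rn σ κ)).comap (rn σ κ) = q := by
  ext f
  rw [Ideal.mem_comap, mem_map_rn, oe_rn, Ideal.mem_map_C_iff]
  constructor
  · intro h
    simpa using h 0
  · intro h n
    rw [Polynomial.coeff_C]
    split_ifs
    · exact h
    · exact q.zero_mem

theorem rn_comp (σ κ : Type) [Field κ] (w : Option σ → ℕ) (d : ℕ) (f : MvPolynomial σ κ) :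
    rn σ κ (weightedHomogeneousComponent (fun i => w (some i)) d f) =
      weightedHomogeneousComponent w d (rn σ κ f) := by
  rw [rn_apply, rn_apply]
  induction f using MvPolynomial.induction_on' with
  | monomial m r =>
    have hw : Finsupp.weight w (m.mapDomain Option.some) =
        Finsupp.weight (fun i => w (some i)) m := by
      rw [Finsupp.weight_apply, Finsupp.weight_apply, Finsupp.sum_mapDomain_index]
      · intro b; simp
      · intro b m₁ m₂; exact add_smul m₁ m₂ (w b)
    rw [weightedHomogeneousComponent_of_mem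
        (isWeightedHomogeneous_monomial (fun i => w (some i)) m r rfl),
      rename_monomial, weightedHomogeneousComponent_of_mem
        (isWeightedHomogeneous_monomial w (m.mapDomain Option.some) r rfl), hw]
    split_ifs
    · rw [rename_monomial]
    · rw [map_zero]
  | add p q hp hq => simp only [map_add, hp, hq]

theorem rn_height (σ κ : Type) [Finite σ] [Field κ] (Q : Ideal (MvPolynomial (Option σ) κ))
    [Q.IsPrime] (hne : Q ≠ (Q.comap (rn σ κ)).map (rn σ κ)) :
    Q.height = (Q.comap (rn σ κ)).height + 1 := by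
  set P : Ideal (Polynomial (MvPolynomial σ κ)) := Q.comap
    ((oe σ κ).symm : Polynomial (MvPolynomial σ κ) →+* MvPolynomial (Option σ) κ) with hP
  have : P.IsPrime := Ideal.comap_isPrime _ _
  have hc : P.comap (Polynomial.C : MvPolynomial σ κ →+* _) = Q.comap (rn σ κ) := by
    rw [hP, Ideal.comap_comap, rn_comp_eq]
  have hh : P.height = Q.height := RingEquiv.height_comap (oe σ κ).symm Q
  have hQP : Q = P.comap
      ((oe σ κ) : MvPolynomial (Option σ) κ →+* Polynomial (MvPolynomial σ κ)) := by
    ext f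
    rw [hP, Ideal.mem_comap, Ideal.mem_comap]
    simp
  rw [← hh, ← hc]
  apply height_poly
  intro h
  apply hne
  rw [map_rn_eq, ← hc, ← h]
  exact hQP

private lemma natDegree_comp_le (σ κ : Type) [Field κ] (w : Option σ → ℕ) (d : ℕ)
    (g : MvPolynomial (Option σ) κ) :
    (oe σ κ (weightedHomogeneousComponent w d g)).natDegree ≤ (oe σ κ g).natDegree := by
  classical
  rw [oe_apply, oe_apply, natDegree_optionEquivLeft, natDegree_optionEquivLeft]
  rw [degreeOf_le_iff]
  intro m hm
  have hm' : m ∈ g.support := by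
    rw [mem_support_iff] at hm ⊢
    intro h
    apply hm
    rw [coeff_weightedHomogeneousComponent, h]
    simp
  exact (degreeOf_le_iff.1 le_rfl) m hm'

theorem rn_elim (σ κ : Type) [Field κ] (w : Option σ → ℕ)
    (Q : Ideal (MvPolynomial (Option σ) κ)) [Q.IsPrime] (hQ : HomId w Q)
    (hne : Q ≠ (Q.comap (rn σ κ)).map (rn σ κ)) :
    ∃ (D : ℕ) (g : MvPolynomial (Option σ) κ), IsWeightedHomogeneous w g D ∧ g ∈ Q ∧
      g ∉ (Q.comap (rn σ κ)).map (rn σ κ) ∧
      ∀ Q' : Ideal (MvPolynomial (Option σ) κ), Q'.IsPrime → g ∈ Q' →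
        Q'.comap (rn σ κ) = Q.comap (rn σ κ) → Q ≤ Q' := by
  have hcom : ∀ I : Ideal (MvPolynomial (Option σ) κ), (I.comap
      ((oe σ κ).symm : Polynomial (MvPolynomial σ κ) →+* MvPolynomial (Option σ) κ)).comap
      (Polynomial.C : MvPolynomial σ κ →+* _) = I.comap (rn σ κ) := by
    intro I
    rw [Ideal.comap_comap, rn_comp_eq]
  have hback : ∀ I : Ideal (MvPolynomial (Option σ) κ), I = (I.comap
      ((oe σ κ).symm : Polynomial (MvPolynomial σ κ) →+* MvPolynomial (Option σ) κ)).comap
      ((oe σ κ) : MvPolynomial (Option σ) κ →+* Polynomial (MvPolynomial σ κ)) := by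
    intro I
    ext f
    rw [Ideal.mem_comap, Ideal.mem_comap]
    simp
  have hmem : ∀ (I : Ideal (MvPolynomial (Option σ) κ)) (f : MvPolynomial (Option σ) κ),
      oe σ κ f ∈ I.comap ((oe σ κ).symm : Polynomial (MvPolynomial σ κ) →+*
        MvPolynomial (Option σ) κ) ↔ f ∈ I := by
    intro I f
    rw [Ideal.mem_comap]
    simp
  have hPp : (Q.comap ((oe σ κ).symm : Polynomial (MvPolynomial σ κ) →+*
      MvPolynomial (Option σ) κ)).IsPrime := Ideal.comap_isPrime _ _
  have hne' : Q.comap ((oe σ κ).symm : Polynomial (MvPolynomial σ κ) →+*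
      MvPolynomial (Option σ) κ) ≠ ((Q.comap ((oe σ κ).symm : Polynomial (MvPolynomial σ κ) →+*
      MvPolynomial (Option σ) κ)).comap (Polynomial.C : MvPolynomial σ κ →+* _)).map
      (Polynomial.C : MvPolynomial σ κ →+* _) := by
    intro h
    apply hne
    rw [map_rn_eq, ← hcom, ← h]
    exact hback Q
  obtain ⟨n, ⟨g₀, hg₀, hg₀', hdeg⟩, hall⟩ := exists_elim _ hne'
  -- the element of the ring in question
  obtain ⟨g, rfl⟩ := (oe σ κ).surjective g₀
  have hgQ : g ∈ Q := (hmem Q g).1 hg₀
  have hgn : g ∉ (Q.comap (rn σ κ)).map (rn σ κ) := by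
    rw [mem_map_rn, ← hcom]
    exact hg₀'
  obtain ⟨D, hD⟩ := exists_comp w _ g hgn
  refine ⟨D, weightedHomogeneousComponent w D g,
    weightedHomogeneousComponent_isWeightedHomogeneous D g, hQ g hgQ D, hD, ?_⟩
  intro Q' hQ' hgQ' hc
  have h1 := hall (oe σ κ (weightedHomogeneousComponent w D g)) ((hmem Q _).2 (hQ g hgQ D))
    (by
      rw [hcom, ← mem_map_rn]
      exact hD)
    ((natDegree_comp_le σ κ w D g).trans hdeg)
    (Q'.comap ((oe σ κ).symm : Polynomial (MvPolynomial σ κ) →+* MvPolynomial (Option σ) κ))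
    (Ideal.comap_isPrime _ _) ((hmem Q' _).2 hgQ') (by rw [hcom, hcom, hc])
  intro f hf
  exact (hmem Q' f).1 (h1 ((hmem Q f).2 hf))

end Pool.Agent.Helper41.PP
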