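import Pool.Agent.Helper41.PP.Push
import Pool.Agent.Helper41.PP.Opt

/-!
THEOREM `vanish`: in the ring of all polynomials every homogeneous prime of positive height is
zero modulo `ConeRel`.

PROOF. `Finite.induction_empty_option` on `σ` (statement for all `w`, all `c > 0`).
- empty: the ring is a field (`MvPolynomial.isEmptyRingEquiv`), the only prime is 0, height 0.
- equivalence `e : α ≃ β`: `rename e` is a good extension for `w ∘ e`, `w` (a ring isomorphism), and
  every prime of `MvPolynomial β κ` is the extension of its contraction: `push_cone`.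
- option: `rn` is a good extension (`rn_flat`, `rn_prime`, `rn_comap`, `rn_comp`). Let
  `q ∈ Sub w ⊥ c`, `q0 = q.comap rn` (homogeneous). If `q = q0.map rn` then `q0.height = c`
  (`height_map_flat`) and `q` is the extension of `q0`: induction and `push_cone` (`mapDomain` of
  `single`). Otherwise `rn_height`: `q0.height + 1 = c`; `g` from `rn_elim`; let
  `P = q0.map rn ∈ Sub w ⊥ (c - 1)`, `g ∉ P`; `r` the divisor of `g` on `V(P)` (`exists_div`), in
  `ConeRel`. If `r Q' ≠ 0` then `P ≤ Q'`, `g ∈ Q'` and either `Q'.comap rn = q0`, so `q ≤ Q'`,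
  `q = Q'` (same height), or `Q'.comap rn` strictly contains `q0`, its height is at least `c`,
  so `Q' = (Q'.comap rn).map rn` (`Q'` has height `c`), and `single Q' 1 ∈ ConeRel` by the first
  case. So `r - (r q) • single q 1 ∈ ConeRel` (finite sum of `single Q' 1`, `Q' ≠ q`), and
  `r q = mult > 0` (`mult_pos`), so `single q 1 ∈ ConeRel`.
-/

namespace Pool.Agent.Helper41.PP

open MvPolynomial

theorem rn_good (σ κ : Type) [Field κ] (w : Option σ → ℕ) :
    GoodExt (fun i => w (some i)) w (rn σ κ) :=
  ⟨rn_flat σ κ, fun q hq => by haveI := hq; exact rn_prime σ κ q, fun q _ => rn_comap σ κ q,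
    fun d f => rn_comp σ κ w d f⟩

/-- If the divisor `r` is in the submodule `S`, `r Q = 0` or `single Q 1 ∈ S` for all `Q ≠ q`, and
`r q ≠ 0`, then `single q 1 ∈ S`. -/
theorem single_mem_of {α : Type} (S : Submodule ℚ (α →₀ ℚ)) (r : α →₀ ℚ) (hr : r ∈ S) (q : α)
    (hq : r q ≠ 0) (h : ∀ Q, Q ≠ q → r Q ≠ 0 → Finsupp.single Q 1 ∈ S) :
    Finsupp.single q 1 ∈ S := by
  classical
  have h1 : r.erase q ∈ S := by
    rw [← Finsupp.sum_single (r.erase q)]
    apply Submodule.sum_mem
    intro Q hQ
    rw [Finsupp.support_erase, Finset.mem_erase, Finsupp.mem_support_iff] at hQ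
    have h2 : Finsupp.single Q ((r.erase q) Q) = (r.erase q) Q • Finsupp.single Q (1 : ℚ) := by
      rw [Finsupp.smul_single, smul_eq_mul, mul_one]
    rw [h2]
    exact S.smul_mem _ (h Q hQ.1 hQ.2)
  have h3 : Finsupp.single q (1 : ℚ) = (r q)⁻¹ • (r - r.erase q) := by
    have h4 : r - r.erase q = Finsupp.single q (r q) := by
      rw [sub_eq_iff_eq_add]
      exact (Finsupp.single_add_erase q r).symm
    rw [h4, Finsupp.smul_single, smul_eq_mul, inv_mul_cancel₀ hq]
  rw [h3]
  exact S.smul_mem _ (S.sub_mem hr h1)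

private theorem ren_comp {α β κ : Type} [Field κ] (e : α ≃ β) (w : β → ℕ) (d : ℕ)
    (f : MvPolynomial α κ) :
    rename e (weightedHomogeneousComponent (fun i => w (e i)) d f) =
      weightedHomogeneousComponent w d (rename e f) := by
  classical
  have hw : ∀ t : α →₀ ℕ, Finsupp.weight w (t.mapDomain e) =
      Finsupp.weight (fun i => w (e i)) t := by
    intro t
    rw [Finsupp.weight_apply, Finsupp.weight_apply, Finsupp.sum_mapDomain_index]
    · intro b; simp
    · intro b m n; simp [add_mul]
  ext u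
  obtain ⟨t, rfl⟩ : ∃ t : α →₀ ℕ, t.mapDomain e = u := by
    refine ⟨u.mapDomain e.symm, ?_⟩
    rw [← Finsupp.mapDomain_comp]
    simp
  rw [coeff_rename_mapDomain _ e.injective, coeff_weightedHomogeneousComponent,
    coeff_weightedHomogeneousComponent, coeff_rename_mapDomain _ e.injective, hw]

private theorem ren_good {α β κ : Type} [Field κ] (e : α ≃ β) (w : β → ℕ) :
    GoodExt (fun i => w (e i)) w
      (renameEquiv κ e : MvPolynomial α κ ≃ₐ[κ] MvPolynomial β κ).toRingEquiv.toRingHom := by
  refine ⟨RingHom.Flat.of_bijective (renameEquiv κ e).toRingEquiv.bijective, ?_, ?_, ?_⟩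
  · intro q hq
    exact Ideal.map_isPrime_of_equiv (renameEquiv κ e : MvPolynomial α κ ≃ₐ[κ] MvPolynomial β κ).toRingEquiv
  · intro q _
    exact Ideal.comap_map_of_bijective _ (renameEquiv κ e).toRingEquiv.bijective
  · intro d f
    exact ren_comp e w d f

/-- The case of an extended prime. -/
private theorem ext_case {σ σ' κ : Type} [Finite σ] [Finite σ'] [Field κ] {w : σ → ℕ}
    {w' : σ' → ℕ} {ι : MvPolynomial σ κ →+* MvPolynomial σ' κ} (hι : GoodExt w w' ι) (c : ℕ)
    (ih : ∀ q : Sub w (⊥ : Ideal (MvPolynomial σ κ)) c,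
      Finsupp.single q 1 ∈ ConeRel w (⊥ : Ideal (MvPolynomial σ κ)) c)
    (q : Sub w' (⊥ : Ideal (MvPolynomial σ' κ)) c)
    (hq : q.ideal = (q.ideal.comap ι).map ι) :
    Finsupp.single q 1 ∈ ConeRel w' (⊥ : Ideal (MvPolynomial σ' κ)) c := by
  classical
  have := q.prime
  have hp : (q.ideal.comap ι).IsPrime := Ideal.comap_isPrime ι q.ideal
  have hh : (q.ideal.comap ι).height = c := by
    let : Algebra (MvPolynomial σ κ) (MvPolynomial σ' κ) := ι.toAlgebra
    have : Module.Flat (MvPolynomial σ κ) (MvPolynomial σ' κ) := hι.flat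
    have h1 := height_map_flat (A := MvPolynomial σ κ) (B := MvPolynomial σ' κ)
      (q.ideal.comap ι) q.ideal hq rfl
    rw [← h1, q.height]
  let q0 : Sub w (⊥ : Ideal (MvPolynomial σ κ)) c :=
    { ideal := q.ideal.comap ι
      prime := hp
      homog := by
        intro f hf d
        rw [Ideal.mem_comap] at hf ⊢
        rw [hι.comp]
        exact q.homog _ hf d
      le := bot_le
      height := hh }
  obtain ⟨e, he⟩ := exists_ext hι (I := ⊥) (I' := ⊥) bot_le c
  have h2 : e q0 = q := by
    apply sub_ext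
    rw [he, hq]
  have h3 := push_cone hι (I := ⊥) (I' := ⊥) bot_le e he _ (ih q0)
  rw [Finsupp.mapDomain_single, h2] at h3
  exact h3

private theorem option_case (σ κ : Type) [Finite σ] [Field κ]
    (ih : ∀ (w : σ → ℕ) (c : ℕ), 0 < c → ∀ q : Sub w (⊥ : Ideal (MvPolynomial σ κ)) c,
      Finsupp.single q 1 ∈ ConeRel w (⊥ : Ideal (MvPolynomial σ κ)) c)
    (w : Option σ → ℕ) (c : ℕ) (hc : 0 < c)
    (q : Sub w (⊥ : Ideal (MvPolynomial (Option σ) κ)) c) :
    Finsupp.single q 1 ∈ ConeRel w (⊥ : Ideal (MvPolynomial (Option σ) κ)) c := by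
  classical
  have hι := rn_good σ κ w
  by_cases hne : q.ideal = (q.ideal.comap (rn σ κ)).map (rn σ κ)
  · exact ext_case hι c (ih _ c hc) q hne
  · have := q.prime
    have hp : (q.ideal.comap (rn σ κ)).IsPrime := Ideal.comap_isPrime (rn σ κ) q.ideal
    have hh := rn_height σ κ q.ideal hne
    obtain ⟨b, rfl⟩ : ∃ b, b + 1 = c := ⟨c - 1, by omega⟩
    have hb : (q.ideal.comap (rn σ κ)).height = b := by
      rw [q.height] at hh
      have h1 : ((b : ℕ∞) + 1) = (q.ideal.comap (rn σ κ)).height + 1 := by
        rw [← hh]; push_cast; rfl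
      exact ((ENat.add_left_injective_of_ne_top (ENat.natCast_ne_top 1)) h1).symm
    let P0 : Sub (fun i => w (some i)) (⊥ : Ideal (MvPolynomial σ κ)) b :=
      { ideal := q.ideal.comap (rn σ κ)
        prime := hp
        homog := by
          intro f hf d
          rw [Ideal.mem_comap] at hf ⊢
          rw [hι.comp]
          exact q.homog _ hf d
        le := bot_le
        height := hb }
    obtain ⟨e, he⟩ := exists_ext hι (I := ⊥) (I' := ⊥) bot_le b
    have hP : (e P0).ideal = (q.ideal.comap (rn σ κ)).map (rn σ κ) := he P0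
    obtain ⟨D, g, hg, hgq, hgn, hel⟩ := rn_elim σ κ w q.ideal q.homog hne
    have hgP : g ∉ (e P0).ideal := by rw [hP]; exact hgn
    obtain ⟨r, hr⟩ := exists_div (c := b + 1) rfl (e P0) g hgP
    have hrC : r ∈ ConeRel w (⊥ : Ideal (MvPolynomial (Option σ) κ)) (b + 1) :=
      Submodule.subset_span ⟨b, e P0, D, g, rfl, hg, hgP, hr⟩
    have hPq : (e P0).ideal ≤ q.ideal := by rw [hP]; exact Ideal.map_comap_le
    have hPh : (e P0).ideal.height = b := (e P0).height
    have := (e P0).prime
    apply single_mem_of _ r hrC q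
    · rw [(hr q).1 hPq]
      have h1 : 0 < mult (e P0).ideal q.ideal g := by
        apply mult_pos _ _ hPq _ g hgP hgq
        rw [q.height, hPh]; push_cast; exact le_refl _
      exact_mod_cast h1.ne'
    · intro Q hQ hrQ
      have := Q.prime
      have h1 : (e P0).ideal ≤ Q.ideal := by
        by_contra h1
        exact hrQ ((hr Q).2 h1)
      have h2 : g ∈ Q.ideal := by
        by_contra h2
        apply hrQ
        rw [(hr Q).1 h1, mult_eq_zero _ _ _ h2]
        norm_num
      have h3 : q.ideal.comap (rn σ κ) ≤ Q.ideal.comap (rn σ κ) := by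
        rw [← Ideal.map_le_iff_le_comap, ← hP]
        exact h1
      by_cases h4 : Q.ideal.comap (rn σ κ) = q.ideal.comap (rn σ κ)
      · exfalso
        apply hQ
        have h5 : q.ideal ≤ Q.ideal := hel Q.ideal Q.prime h2 h4
        have : q.ideal.FiniteHeight := ⟨Or.inr (by rw [q.height]; exact ENat.natCast_ne_top _)⟩
        apply sub_ext
        exact (Ideal.eq_of_le_of_height_le q.ideal h5 (by rw [q.height, Q.height])).symm
      · have hp' : (Q.ideal.comap (rn σ κ)).IsPrime := Ideal.comap_isPrime (rn σ κ) Q.ideal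
        have h5 : q.ideal.comap (rn σ κ) < Q.ideal.comap (rn σ κ) :=
          lt_of_le_of_ne h3 (fun h => h4 h.symm)
        have h6 := Ideal.height_add_one_le_of_lt_of_isPrime h5
        apply ext_case hι (b + 1) (ih _ (b + 1) (by omega)) Q
        by_contra h7
        have h8 := rn_height σ κ Q.ideal h7
        rw [Q.height] at h8
        rw [hb] at h6
        have h9 : ((b + 1 : ℕ) : ℕ∞) + 1 ≤ ((b + 1 : ℕ) : ℕ∞) := by
          calc ((b + 1 : ℕ) : ℕ∞) + 1 ≤ (Q.ideal.comap (rn σ κ)).height + 1 := by
                gcongr; push_cast; exact h6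
            _ = ((b + 1 : ℕ) : ℕ∞) := h8.symm
        have h10 : (((b + 1 + 1 : ℕ)) : ℕ∞) ≤ ((b + 1 : ℕ) : ℕ∞) := by
          exact_mod_cast h9
        have h11 : b + 1 + 1 ≤ b + 1 := by exact_mod_cast h10
        omega

theorem vanish (σ : Type) [Finite σ] (κ : Type) [Field κ] (w : σ → ℕ) (c : ℕ) (hc : 0 < c)
    (q : Sub w (⊥ : Ideal (MvPolynomial σ κ)) c) :
    Finsupp.single q 1 ∈ ConeRel w (⊥ : Ideal (MvPolynomial σ κ)) c := by
  classical
  have key : ∀ (α : Type) [Finite α], Finite α → ∀ (w : α → ℕ) (c : ℕ), 0 < c →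
      ∀ q : Sub w (⊥ : Ideal (MvPolynomial α κ)) c,
      Finsupp.single q 1 ∈ ConeRel w (⊥ : Ideal (MvPolynomial α κ)) c := by
    intro α _
    refine Finite.induction_empty_option (P := fun α : Type => Finite α → ∀ (w : α → ℕ) (c : ℕ),
      0 < c → ∀ q : Sub w (⊥ : Ideal (MvPolynomial α κ)) c,
      Finsupp.single q 1 ∈ ConeRel w (⊥ : Ideal (MvPolynomial α κ)) c) ?_ ?_ ?_ α
    · intro α β e ih hβ w c hc q
      have : Finite β := hβ
      have : Finite α := Finite.of_equiv β e.symm
      apply ext_case (ren_good e w) c (ih inferInstance _ c hc) q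
      exact (Ideal.map_comap_of_surjective _ (renameEquiv κ e).toRingEquiv.surjective _).symm
    · intro _ w c hc q
      exfalso
      have := q.prime
      have h1 : q.ideal = ⊥ := by
        rw [eq_bot_iff]
        intro x hx
        by_contra h0
        rw [Ideal.mem_bot] at h0
        have h2 : IsUnit x := by
          have h3 : IsUnit (isEmptyRingEquiv κ PEmpty x) := by
            rw [isUnit_iff_ne_zero]
            intro h4
            exact h0 ((map_eq_zero_iff _ (isEmptyRingEquiv κ PEmpty).injective).mp h4)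
          exact (MulEquiv.isUnit_map (isEmptyRingEquiv κ PEmpty)).mp h3
        exact q.prime.ne_top (Ideal.eq_top_of_isUnit_mem _ hx h2)
      have h2 := q.height
      rw [h1, Ideal.height_bot] at h2
      have h3 : (0 : ℕ) = c := by exact_mod_cast h2
      omega
    · intro α _ ih _ w c hc q
      exact option_case α κ (ih inferInstance) w c hc q
  exact key σ inferInstance w c hc q

end Pool.Agent.Helper41.PP
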