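import Pool.Agent.Helper41.PP.Lam
import Pool.Agent.Helper41.PP.Vanish

/-!
THEOREM `const_span`: a subvariety of `X = V(pencilI J F G)` on which `G` vanishes is, modulo
rational equivalence on `X`, a combination of constant subvarieties (of the base locus).

PROOF. `q = Q.ideal.comap ct`, prime, homogeneous (`ct_comp`), contains `baseI J F G` (`ct F` is in
`Q.ideal` since `ct F + C t * ct G` and `ct G` are). If `Q.ideal = q.map ct`, then `q.height = c`
(`height_map_flat`), and `single Q 1` is in `ConstS`. Otherwise `Q0 = Q.ideal.comap lam`, `Q0.comap rn =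
q` (`lam_rn`), `Q0 ≠ q.map rn` (apply `map lam`, `ct_map`, `lam_map_comap`), so
`Q0.height = q.height + 1` (`rn_height`), `q.height + 1 = c` (`lam_height`). `rn_elim` for the weights
`ow w` gives `g`, homogeneous of degree `D`; `g' = lam g` is homogeneous of degree `D` (`lam_comp`),
in `Q.ideal`, not in `P = q.map ct` (`lam_comap_map`, `rn_disjoint`). There is `i` with
`X i ∉ q`: otherwise `q.map ct` contains all `X i`, which generate a maximal ideal, so
`Q.ideal = q.map ct`. `P` is a member of `Sub w (pencilI J F G) b`, `b + 1 = c`; let `r = u - v`, `u` the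
divisor of `g' ^ (w i)`, `v` the divisor of `(X i) ^ D` on `V(P)` (`exists_div`), both of degree
`D * w i`; `r ∈ Rel`. Let `Q' ≠ Q`, `r Q' ≠ 0`. Then `P ≤ Q'` and `g' ∈ Q'` or `X i ∈ Q'`
(`mult_eq_zero`). If `Q'.comap ct = q` then `X i ∉ Q'`, so `g ∈ Q'.comap lam`, so
`Q0 ≤ Q'.comap lam`, `Q ≤ Q'`, equal heights, `Q = Q'`, contradiction. So `Q'.comap ct` strictly
contains `q` and `Q'.ideal = (Q'.comap ct).map ct` (heights: it contains `(Q'.comap ct).map ct`, of height
at least `q.height + 1 = c`), so `single Q' 1 ∈ ConstS` (`G`, `F ∈ q`). And `r Q > 0` (`mult_pos`,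
`X i ∉ Q`). Conclude with `single_mem_of` for `S = Rel ⊔ ConstS`.
-/

namespace Pool.Agent.Helper41.PP

open MvPolynomial

variable {σ κ : Type} [Field κ]

/-- The span of the constant subvarieties of the base locus. -/
noncomputable def ConstS (w : σ → ℕ) (J : Ideal (MvPolynomial σ κ)) (F G : MvPolynomial σ κ) (c : ℕ) :
    Submodule ℚ (Sub w (pencilI J F G) c →₀ ℚ) :=
  Submodule.span ℚ {r | ∃ (Q : Sub w (pencilI J F G) c) (q : Sub w (baseI J F G) c),
    Q.ideal = q.ideal.map (ct σ κ) ∧ r = Finsupp.single Q 1}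

private theorem base_le_comap {J : Ideal (MvPolynomial σ κ)} {F G : MvPolynomial σ κ}
    {Q : Ideal (MvPolynomial σ (RatFunc κ))} (hQ : pencilI J F G ≤ Q) (hG : ct σ κ G ∈ Q) :
    baseI J F G ≤ Q.comap (ct σ κ) := by
  unfold baseI
  rw [sup_le_iff]
  unfold pencilI at hQ
  rw [sup_le_iff] at hQ
  refine ⟨?_, ?_⟩
  · rw [← Ideal.map_le_iff_le_comap]
    exact hQ.1
  · have h1 : ct σ κ F + C RatFunc.X * ct σ κ G ∈ Q :=
      hQ.2 (Ideal.subset_span (Set.mem_singleton _))
    have h2 : ct σ κ F ∈ Q := by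
      have h3 := Q.sub_mem h1 (Q.mul_mem_left (C RatFunc.X) hG)
      rwa [add_sub_cancel_right] at h3
    rw [Ideal.span_le]
    intro x hx
    rw [Set.mem_insert_iff, Set.mem_singleton_iff] at hx
    rcases hx with rfl | rfl
    · exact h2
    · exact hG

private theorem pencil_le' (J : Ideal (MvPolynomial σ κ)) (F G : MvPolynomial σ κ) :
    pencilI J F G ≤ (baseI J F G).map (ct σ κ) := by
  unfold pencilI baseI
  rw [Ideal.map_sup]
  refine sup_le_sup le_rfl ?_
  rw [Ideal.span_le, Set.singleton_subset_iff]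
  have hF : ct σ κ F ∈ (Ideal.span {F, G}).map (ct σ κ) :=
    Ideal.mem_map_of_mem _ (Ideal.subset_span (by simp))
  have hG : ct σ κ G ∈ (Ideal.span {F, G}).map (ct σ κ) :=
    Ideal.mem_map_of_mem _ (Ideal.subset_span (by simp))
  exact Ideal.add_mem _ hF (Ideal.mul_mem_left _ _ hG)

private theorem comap_homog {w : σ → ℕ} {I : Ideal (MvPolynomial σ (RatFunc κ))} {c : ℕ}
    (Q : Sub w I c) (f : MvPolynomial σ κ) (hf : f ∈ Q.ideal.comap (ct σ κ)) (d : ℕ) :
    weightedHomogeneousComponent w d f ∈ Q.ideal.comap (ct σ κ) := by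
  rw [Ideal.mem_comap] at hf ⊢
  rw [ct_comp]
  exact Q.homog _ hf d

/-- The constant case. -/
private theorem const_case [Finite σ] (w : σ → ℕ) (J : Ideal (MvPolynomial σ κ))
    (F G : MvPolynomial σ κ) (c : ℕ) (Q : Sub w (pencilI J F G) c)
    (hG : ct σ κ G ∈ Q.ideal) (hQ : Q.ideal = (Q.ideal.comap (ct σ κ)).map (ct σ κ)) :
    Finsupp.single Q 1 ∈ ConstS w J F G c := by
  have := Q.prime
  have hp : (Q.ideal.comap (ct σ κ)).IsPrime := Ideal.comap_isPrime (ct σ κ) Q.ideal
  have hh : (Q.ideal.comap (ct σ κ)).height = c := by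
    let : Algebra (MvPolynomial σ κ) (MvPolynomial σ (RatFunc κ)) := (ct σ κ).toAlgebra
    have : Module.Flat (MvPolynomial σ κ) (MvPolynomial σ (RatFunc κ)) := (ct_good w).flat
    have h1 := height_map_flat (A := MvPolynomial σ κ) (B := MvPolynomial σ (RatFunc κ))
      (Q.ideal.comap (ct σ κ)) Q.ideal hQ rfl
    rw [← h1, Q.height]
  exact Submodule.subset_span ⟨Q,
    { ideal := Q.ideal.comap (ct σ κ)
      prime := hp
      homog := comap_homog Q
      le := base_le_comap Q.le hG
      height := hh }, hQ, rfl⟩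

private theorem comap_lam_rn (Q : Ideal (MvPolynomial σ (RatFunc κ))) :
    (Q.comap (lam σ κ)).comap (rn σ κ) = Q.comap (ct σ κ) := by
  ext f
  rw [Ideal.mem_comap, Ideal.mem_comap, Ideal.mem_comap, lam_rn]

private theorem ne_of_ne {Q : Ideal (MvPolynomial σ (RatFunc κ))}
    (hne : Q ≠ (Q.comap (ct σ κ)).map (ct σ κ)) :
    Q.comap (lam σ κ) ≠ ((Q.comap (lam σ κ)).comap (rn σ κ)).map (rn σ κ) := by
  intro h
  apply hne
  have h1 := congrArg (Ideal.map (lam σ κ)) h
  rw [lam_map_comap, ct_map, comap_lam_rn] at h1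
  exact h1

private theorem height_of_ne [Finite σ] {Q : Ideal (MvPolynomial σ (RatFunc κ))} [Q.IsPrime]
    (hne : Q ≠ (Q.comap (ct σ κ)).map (ct σ κ)) :
    Q.height = (Q.comap (ct σ κ)).height + 1 := by
  have : (Q.comap (lam σ κ)).IsPrime := Ideal.comap_isPrime (lam σ κ) Q
  rw [lam_height, rn_height σ κ (Q.comap (lam σ κ)) (ne_of_ne hne), comap_lam_rn]

private theorem exists_var (Q : Ideal (MvPolynomial σ (RatFunc κ))) [Q.IsPrime]
    (hne : Q ≠ (Q.comap (ct σ κ)).map (ct σ κ)) :
    ∃ i, (X i : MvPolynomial σ κ) ∉ Q.comap (ct σ κ) := by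
  classical
  by_contra hcon
  push Not at hcon
  apply hne
  apply le_antisymm _ Ideal.map_comap_le
  have h1 : Ideal.span (X '' (Set.univ : Set σ)) ≤ (Q.comap (ct σ κ)).map (ct σ κ) := by
    rw [Ideal.span_le]
    rintro x ⟨i, -, rfl⟩
    have h2 := Ideal.mem_map_of_mem (ct σ κ) (hcon i)
    have h3 : ct σ κ (X i) = X i := by
      unfold ct
      rw [MvPolynomial.map_X]
    rwa [h3] at h2
  intro f hf
  have h2 : f - C (constantCoeff f) ∈ Ideal.span (X '' (Set.univ : Set σ)) := by
    rw [mem_ideal_span_X_image]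
    intro m hm
    by_contra h3
    push Not at h3
    have h4 : m = 0 := by
      ext i
      exact h3 i (Set.mem_univ i)
    rw [mem_support_iff, h4] at hm
    apply hm
    rw [coeff_sub, constantCoeff_eq, coeff_C, if_pos rfl, sub_self]
  have h3 : f - C (constantCoeff f) ∈ Q := Ideal.map_comap_le (h1 h2)
  have h4 : C (constantCoeff f) ∈ Q := by
    have h5 := Q.sub_mem hf h3
    rwa [sub_sub_cancel] at h5
  have h5 : constantCoeff f = 0 := by
    by_contra h6
    apply (inferInstance : Q.IsPrime).ne_top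
    exact Ideal.eq_top_of_isUnit_mem _ h4 ((isUnit_iff_ne_zero.2 h6).map C)
  rw [h5, C_0, sub_zero] at h2
  exact h1 h2

theorem const_span [Finite σ] (w : σ → ℕ) (hw : ∀ i, 0 < w i) (J : Ideal (MvPolynomial σ κ))
    (F G : MvPolynomial σ κ) (c : ℕ) (Q : Sub w (pencilI J F G) c)
    (hG : ct σ κ G ∈ Q.ideal) :
    Finsupp.single Q 1 ∈ Rel w (pencilI J F G) c ⊔ ConstS w J F G c := by
  classical
  by_cases hne : Q.ideal = (Q.ideal.comap (ct σ κ)).map (ct σ κ)
  · exact Submodule.mem_sup_right (const_case w J F G c Q hG hne)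
  · have hQp := Q.prime
    have hp : (Q.ideal.comap (ct σ κ)).IsPrime := Ideal.comap_isPrime (ct σ κ) Q.ideal
    have hp0 : (Q.ideal.comap (lam σ κ)).IsPrime := Ideal.comap_isPrime (lam σ κ) Q.ideal
    have hh := height_of_ne hne
    obtain ⟨b, rfl⟩ : ∃ b, b + 1 = c := by
      cases c with
      | zero =>
        exfalso
        rw [Q.height] at hh
        have h1 : (1 : ℕ∞) ≤ 0 := by
          calc (1 : ℕ∞) ≤ (Q.ideal.comap (ct σ κ)).height + 1 := le_add_self
            _ = ((0 : ℕ) : ℕ∞) := hh.symm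
            _ = 0 := by norm_num
        exact absurd h1 (by norm_num)
      | succ b => exact ⟨b, rfl⟩
    have hb : (Q.ideal.comap (ct σ κ)).height = b := by
      rw [Q.height] at hh
      have h1 : ((b : ℕ∞) + 1) = (Q.ideal.comap (ct σ κ)).height + 1 := by
        rw [← hh]; push_cast; rfl
      exact ((ENat.add_left_injective_of_ne_top (ENat.natCast_ne_top 1)) h1).symm
    let P0 : Sub w (baseI J F G) b :=
      { ideal := Q.ideal.comap (ct σ κ)
        prime := hp
        homog := comap_homog Q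
        le := base_le_comap Q.le hG
        height := hb }
    obtain ⟨e, he⟩ := exists_ext (ct_good w) (pencil_le' J F G) b
    have hP : (e P0).ideal = (Q.ideal.comap (ct σ κ)).map (ct σ κ) := he P0
    have hhom : HomId (ow w) (Q.ideal.comap (lam σ κ)) := by
      intro f hf d
      rw [Ideal.mem_comap] at hf ⊢
      rw [lam_comp]
      exact Q.homog _ hf d
    obtain ⟨D, g, hg, hgq, hgn, hel⟩ := rn_elim σ κ (ow w) (Q.ideal.comap (lam σ κ)) hhom
      (ne_of_ne hne)
    rw [comap_lam_rn] at hgn hel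
    have hgP : lam σ κ g ∉ (e P0).ideal := by
      rw [hP, ← ct_map]
      intro h
      apply hgn
      have := rn_prime σ κ (Q.ideal.comap (ct σ κ))
      rw [← lam_comap_map ((Q.ideal.comap (ct σ κ)).map (rn σ κ)) (rn_disjoint _)]
      exact h
    have hgh : IsWeightedHomogeneous w (lam σ κ g) D := by
      have h1 := lam_comp w D g
      rw [weightedHomogeneousComponent_of_mem (m := D) (n := D) hg, if_pos rfl] at h1
      rw [h1]
      exact weightedHomogeneousComponent_isWeightedHomogeneous D _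
    obtain ⟨i, hi⟩ := exists_var Q.ideal hne
    have hctX : ct σ κ (X i) = X i := by
      unfold ct
      rw [MvPolynomial.map_X]
    have hXQ : (X i : MvPolynomial σ (RatFunc κ)) ∉ Q.ideal := by
      intro h
      apply hi
      rw [Ideal.mem_comap, hctX]
      exact h
    have hPQ : (e P0).ideal ≤ Q.ideal := by rw [hP]; exact Ideal.map_comap_le
    have hXP : (X i : MvPolynomial σ (RatFunc κ)) ∉ (e P0).ideal := fun h => hXQ (hPQ h)
    have hPp := (e P0).prime
    have hgP' : lam σ κ g ^ w i ∉ (e P0).ideal := fun h => hgP (hPp.mem_of_pow_mem _ h)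
    have hXP' : (X i : MvPolynomial σ (RatFunc κ)) ^ D ∉ (e P0).ideal :=
      fun h => hXP (hPp.mem_of_pow_mem _ h)
    obtain ⟨u, hu⟩ := exists_div (c := b + 1) rfl (e P0) _ hgP'
    obtain ⟨v, hv⟩ := exists_div (c := b + 1) rfl (e P0) _ hXP'
    have hrC : u - v ∈ Rel w (pencilI J F G) (b + 1) := by
      refine Submodule.subset_span ⟨b, e P0, w i * D, _, _, u, v, rfl, ?_, ?_, hgP', hXP', hu, hv, ?_⟩
      · have h1 := hgh.pow (w i)
        rwa [smul_eq_mul] at h1
      · have h1 := (isWeightedHomogeneous_X (RatFunc κ) w i).pow D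
        rwa [smul_eq_mul, mul_comm] at h1
      · intro Q'
        rfl
    apply single_mem_of _ (u - v) (Submodule.mem_sup_left hrC) Q
    · rw [Finsupp.sub_apply, (hu Q).1 hPQ, (hv Q).1 hPQ,
        mult_eq_zero _ _ _ (fun h => hXQ (hQp.mem_of_pow_mem _ h))]
      have h1 : 0 < mult (e P0).ideal Q.ideal (lam σ κ g ^ w i) := by
        apply mult_pos _ _ hPQ _ _ hgP' (Ideal.pow_mem_of_mem _ (Ideal.mem_comap.1 hgq) _ (hw i))
        rw [Q.height, (e P0).height]; push_cast; exact le_refl _
      rw [Nat.cast_zero, sub_zero]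
      exact_mod_cast h1.ne'
    · intro Q' hQ' hrQ'
      have hQp' := Q'.prime
      have h1 : (e P0).ideal ≤ Q'.ideal := by
        by_contra h1
        apply hrQ'
        rw [Finsupp.sub_apply, (hu Q').2 h1, (hv Q').2 h1, sub_zero]
      have h2 : lam σ κ g ∈ Q'.ideal ∨ (X i : MvPolynomial σ (RatFunc κ)) ∈ Q'.ideal := by
        by_contra h2
        push Not at h2
        apply hrQ'
        rw [Finsupp.sub_apply, (hu Q').1 h1, (hv Q').1 h1,
          mult_eq_zero _ _ _ (fun h => h2.1 (hQp'.mem_of_pow_mem _ h)),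
          mult_eq_zero _ _ _ (fun h => h2.2 (hQp'.mem_of_pow_mem _ h)), sub_self]
      have h3 : Q.ideal.comap (ct σ κ) ≤ Q'.ideal.comap (ct σ κ) := by
        rw [← Ideal.map_le_iff_le_comap, ← hP]
        exact h1
      have hG' : ct σ κ G ∈ Q'.ideal := h3 (show G ∈ Q.ideal.comap (ct σ κ) from hG)
      apply Submodule.mem_sup_right
      apply const_case w J F G (b + 1) Q' hG'
      by_cases h4 : Q'.ideal.comap (ct σ κ) = Q.ideal.comap (ct σ κ)
      · exfalso
        apply hQ'
        have h5 : lam σ κ g ∈ Q'.ideal := by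
          rcases h2 with h2 | h2
          · exact h2
          · exfalso
            apply hi
            rw [← h4, Ideal.mem_comap, hctX]
            exact h2
        have h6 : Q.ideal.comap (lam σ κ) ≤ Q'.ideal.comap (lam σ κ) := by
          apply hel _ (Ideal.comap_isPrime (lam σ κ) Q'.ideal) h5
          rw [comap_lam_rn, h4]
        have h7 : Q.ideal ≤ Q'.ideal := by
          have h8 := Ideal.map_mono (f := lam σ κ) h6
          rwa [lam_map_comap, lam_map_comap] at h8
        have : Q.ideal.FiniteHeight := ⟨Or.inr (by rw [Q.height]; exact ENat.natCast_ne_top _)⟩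
        apply sub_ext
        exact (Ideal.eq_of_le_of_height_le Q.ideal h7 (by rw [Q.height, Q'.height])).symm
      · have hp' : (Q'.ideal.comap (ct σ κ)).IsPrime := Ideal.comap_isPrime (ct σ κ) Q'.ideal
        have h5 : Q.ideal.comap (ct σ κ) < Q'.ideal.comap (ct σ κ) :=
          lt_of_le_of_ne h3 (fun h => h4 h.symm)
        have h6 := Ideal.height_add_one_le_of_lt_of_isPrime h5
        by_contra h7
        have h8 := height_of_ne h7
        rw [Q'.height] at h8
        rw [hb] at h6
        have h9 : ((b + 1 : ℕ) : ℕ∞) + 1 ≤ ((b + 1 : ℕ) : ℕ∞) := by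
          calc ((b + 1 : ℕ) : ℕ∞) + 1 ≤ (Q'.ideal.comap (ct σ κ)).height + 1 := by
                gcongr; push_cast; exact h6
            _ = ((b + 1 : ℕ) : ℕ∞) := h8.symm
        have h10 : (((b + 1 + 1 : ℕ)) : ℕ∞) ≤ ((b + 1 : ℕ) : ℕ∞) := by
          exact_mod_cast h9
        have h11 : b + 1 + 1 ≤ b + 1 := by exact_mod_cast h10
        omega

end Pool.Agent.Helper41.PP
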