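import Mathlib

/-!
# Chow groups of closed subsets of weighted projective space

`κ` a field, `σ` the set of coordinates, `w` their weights.  A closed subset is given by an
ideal `I` of `MvPolynomial σ κ`; its closed subvarieties of codimension `c` in the weighted
projective space are the homogeneous prime ideals of height `c` containing `I`.
-/

namespace Pool.Agent.Helper41.PP

open MvPolynomial

noncomputable section

/-- The homogeneous prime ideals of height `c` which contain `I`. -/
structure Sub {σ : Type} {κ : Type} [Field κ] (w : σ → ℕ)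
    (I : Ideal (MvPolynomial σ κ)) (c : ℕ) : Type where
  ideal : Ideal (MvPolynomial σ κ)
  prime : ideal.IsPrime
  homog : ∀ f ∈ ideal, ∀ d : ℕ, weightedHomogeneousComponent w d f ∈ ideal
  le : I ≤ ideal
  height : ideal.height = c

attribute [instance] Sub.prime

/-- The length of the local ring of `V(P)` at the generic point of `V(Q)` modulo `f`, i.e. of
`A_Q / (P, f)`. -/
def mult {A : Type} [CommRing A] (P Q : Ideal A) [Q.IsPrime] (f : A) : ℕ :=
  (Module.length (Localization.AtPrime Q)
    (Localization.AtPrime Q ⧸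
      (P ⊔ Ideal.span {f}).map (algebraMap A (Localization.AtPrime Q)))).toNat

variable {σ : Type} {κ : Type} [Field κ]

/-- `r` is the divisor of `f` on `V(P)`. -/
def IsDiv {w : σ → ℕ} {I : Ideal (MvPolynomial σ κ)} {b c : ℕ} (P : Sub w I b)
    (f : MvPolynomial σ κ) (r : Sub w I c → ℚ) : Prop :=
  ∀ Q : Sub w I c, (P.ideal ≤ Q.ideal → r Q = (mult P.ideal Q.ideal f : ℚ)) ∧
    (¬ P.ideal ≤ Q.ideal → r Q = 0)

/-- Rational equivalence: the span of the divisors of `f / g` on the `V(P)`, for `P` of height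
`c - 1` and homogeneous `f`, `g` of the same degree, not in `P`. -/
def Rel (w : σ → ℕ) (I : Ideal (MvPolynomial σ κ)) (c : ℕ) : Submodule ℚ (Sub w I c →₀ ℚ) :=
  Submodule.span ℚ {r | ∃ (b : ℕ) (P : Sub w I b) (d : ℕ) (f g : MvPolynomial σ κ)
    (u v : Sub w I c → ℚ), b + 1 = c ∧ IsWeightedHomogeneous w f d ∧
    IsWeightedHomogeneous w g d ∧ f ∉ P.ideal ∧ g ∉ P.ideal ∧ IsDiv P f u ∧ IsDiv P g v ∧
    ∀ Q, r Q = u Q - v Q}

/-- The same with the divisors of all homogeneous `f` of any degree: the quotient is the Chow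
group modulo the products with the hyperplane class. -/
def ConeRel (w : σ → ℕ) (I : Ideal (MvPolynomial σ κ)) (c : ℕ) :
    Submodule ℚ (Sub w I c →₀ ℚ) :=
  Submodule.span ℚ {r | ∃ (b : ℕ) (P : Sub w I b) (d : ℕ) (f : MvPolynomial σ κ),
    b + 1 = c ∧ IsWeightedHomogeneous w f d ∧ f ∉ P.ideal ∧ IsDiv P f r}

/-- The Chow group of `V(I)`, in codimension `c` of the ambient space, with rational
coefficients. -/
abbrev CH (w : σ → ℕ) (I : Ideal (MvPolynomial σ κ)) (c : ℕ) : Type :=
  (Sub w I c →₀ ℚ) ⧸ Rel w I c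

/-- The Chow group modulo products with the hyperplane class. -/
abbrev CHmodH (w : σ → ℕ) (I : Ideal (MvPolynomial σ κ)) (c : ℕ) : Type :=
  (Sub w I c →₀ ℚ) ⧸ ConeRel w I c

/-- The class of a subvariety. -/
def cls {w : σ → ℕ} {I : Ideal (MvPolynomial σ κ)} {c : ℕ} (Q : Sub w I c) : CH w I c :=
  (Rel w I c).mkQ (Finsupp.single Q 1)

/-- The ideal of `V(J) ∩ {F = G = 0}`. -/
def baseI (J : Ideal (MvPolynomial σ κ)) (F G : MvPolynomial σ κ) :
    Ideal (MvPolynomial σ κ) := J ⊔ Ideal.span {F, G}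

/-- The ideal of `V(J) ∩ {F + t G = 0}` over `κ(t)`. -/
def pencilI (J : Ideal (MvPolynomial σ κ)) (F G : MvPolynomial σ κ) :
    Ideal (MvPolynomial σ (RatFunc κ)) :=
  J.map (MvPolynomial.map (algebraMap κ (RatFunc κ))) ⊔
    Ideal.span {MvPolynomial.map (algebraMap κ (RatFunc κ)) F +
      C RatFunc.X * MvPolynomial.map (algebraMap κ (RatFunc κ)) G}

end

end Pool.Agent.Helper41.PP
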