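import Pool.Agent.Helper41.PP.Main

/-!
The theorem `main` with short names for the objects of the statement.
-/

namespace Pool.Agent.Helper41.PP

open MvPolynomial

noncomputable section

variable {σ : Type} {κ : Type} [Field κ]

/-- Extension of scalars from `κ` to `κ(t)`, on polynomials. -/
def toK : MvPolynomial σ κ →+* MvPolynomial σ (RatFunc κ) :=
  MvPolynomial.map (algebraMap κ (RatFunc κ))

/-- The ideal of `V(I)` over `κ(t)`. -/
def extK (I : Ideal (MvPolynomial σ κ)) : Ideal (MvPolynomial σ (RatFunc κ)) := I.map toK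

/-- The polynomial `F + t G` over `κ(t)`. -/
def member (F G : MvPolynomial σ κ) : MvPolynomial σ (RatFunc κ) := toK F + C RatFunc.X * toK G

/-- The ideal of `V(J) ∩ {F + t G = 0}` over `κ(t)`. -/
def memberI (J : Ideal (MvPolynomial σ κ)) (F G : MvPolynomial σ κ) :
    Ideal (MvPolynomial σ (RatFunc κ)) := extK J ⊔ Ideal.span {member F G}

/-- The Chow group of `V(I)`, in codimension `c` of the ambient space, with rational
coefficients. -/
def Chow (w : σ → ℕ) (I : Ideal (MvPolynomial σ κ)) (c : ℕ) : Type :=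
  (Sub w I c →₀ ℚ) ⧸ Rel w I c

instance (w : σ → ℕ) (I : Ideal (MvPolynomial σ κ)) (c : ℕ) : AddCommGroup (Chow w I c) :=
  Submodule.Quotient.addCommGroup (Rel w I c)

instance (w : σ → ℕ) (I : Ideal (MvPolynomial σ κ)) (c : ℕ) : Module ℚ (Chow w I c) :=
  Submodule.Quotient.module (Rel w I c)

/-- The Chow group modulo products with the hyperplane class. -/
def ChowModH (w : σ → ℕ) (I : Ideal (MvPolynomial σ κ)) (c : ℕ) : Type :=
  (Sub w I c →₀ ℚ) ⧸ ConeRel w I c

instance (w : σ → ℕ) (I : Ideal (MvPolynomial σ κ)) (c : ℕ) : AddCommGroup (ChowModH w I c) :=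
  Submodule.Quotient.addCommGroup (ConeRel w I c)

instance (w : σ → ℕ) (I : Ideal (MvPolynomial σ κ)) (c : ℕ) : Module ℚ (ChowModH w I c) :=
  Submodule.Quotient.module (ConeRel w I c)

/-- The class of a subvariety. -/
def cycleClass {w : σ → ℕ} {I : Ideal (MvPolynomial σ κ)} {c : ℕ} (Q : Sub w I c) : Chow w I c :=
  (Rel w I c).mkQ (Finsupp.single Q 1)

/-- `φ` is given by extension of scalars to `κ(t)` of the subvarieties of `V(I)`. -/
def IsExt {w : σ → ℕ} {I : Ideal (MvPolynomial σ κ)} {I' : Ideal (MvPolynomial σ (RatFunc κ))}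
    {c : ℕ} (φ : Chow w I c →ₗ[ℚ] Chow w I' c) : Prop :=
  ∀ q : Sub w I c, ∃ Q : Sub w I' c, Q.ideal = extK q.ideal ∧ φ (cycleClass q) = cycleClass Q

/-- There is a surjective linear map from `M` to `B` modulo `N`. -/
def MapsOnto (M B : Type) [AddCommGroup M] [Module ℚ M] [AddCommGroup B] [Module ℚ B]
    (N : Submodule ℚ B) : Prop :=
  ∃ ψ : M →ₗ[ℚ] (B ⧸ N), Function.Surjective ψ

/-- The cokernel of `φ` is a quotient of `ChowModH w J b`. -/
def CokerBound {w : σ → ℕ} {I : Ideal (MvPolynomial σ κ)}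
    {I' : Ideal (MvPolynomial σ (RatFunc κ))} {c : ℕ} (J : Ideal (MvPolynomial σ κ)) (b : ℕ)
    (φ : Chow w I c →ₗ[ℚ] Chow w I' c) : Prop :=
  MapsOnto (ChowModH w J b) (Chow w I' c) (LinearMap.range φ)

/-- `φ` is surjective. -/
def IsOnto {w : σ → ℕ} {I : Ideal (MvPolynomial σ κ)} {I' : Ideal (MvPolynomial σ (RatFunc κ))}
    {c : ℕ} (φ : Chow w I c →ₗ[ℚ] Chow w I' c) : Prop := Function.Surjective φ

theorem final (k : Type) [Field k] (n : ℕ) (w : Fin (n + 1) → ℕ) (hw : ∀ i, 0 < w i)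
    (J : Ideal (MvPolynomial (Fin (n + 1)) k)) (F G : MvPolynomial (Fin (n + 1)) k) (m : ℕ)
    (hF : IsWeightedHomogeneous w F m) (hG : IsWeightedHomogeneous w G m) (c : ℕ) :
    ∃ φ : Chow w (baseI J F G) (c + 1) →ₗ[ℚ] Chow w (memberI J F G) (c + 1),
      IsExt φ ∧ CokerBound J c φ ∧ (J = ⊥ → 0 < c → IsOnto φ) :=
  main k n w hw J F G m hF hG c

end

end Pool.Agent.Helper41.PP
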