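import Pool.Agent.Helper41.PP.Defs

/-!
PROOF of `mult_flat`: `Aq = Localization.AtPrime q`, `BQ = Localization.AtPrime Q`; `BQ` is an
`Aq`-algebra (`Localization.localRingHom q Q (algebraMap A B) hc.symm`), flat (localisations of
flat are flat), a local homomorphism, and the maximal ideal of `Aq` generates that of `BQ` because
`Q = q B` (`Localization.AtPrime.map_eq_maximalIdeal`). By `IsLocalRing.length_baseChange`
(Mathlib/RingTheory/LocalRing/Length.lean) with `M = Aq / (P, f) Aq`:
`length BQ (BQ ⊗ M) = length Aq M * length BQ (BQ / m BQ)`, the last factor is 1 (simple module) and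
`BQ ⊗ M = BQ / (P, f) BQ` (`Algebra.TensorProduct.quotIdealMapEquivTensorQuot` or similar).
-/

namespace Pool.Agent.Helper41.PP

theorem mult_flat {A B : Type} [CommRing A] [CommRing B] [Algebra A B] [Module.Flat A B]
    (P q : Ideal A) [q.IsPrime] (Q : Ideal B) [Q.IsPrime]
    (hQ : Q = q.map (algebraMap A B)) (hc : Q.comap (algebraMap A B) = q) (f : A) :
    mult (P.map (algebraMap A B)) Q (algebraMap A B f) = mult P q f := by
  have hl : Q.LiesOver q := ⟨hc.symm⟩
  let _ := Localization.AtPrime.algebraOfLiesOver q Q
  have halg : algebraMap (Localization.AtPrime q) (Localization.AtPrime Q) =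
      Localization.localRingHom q Q (algebraMap A B) hc.symm := rfl
  have hloc : IsLocalHom (algebraMap (Localization.AtPrime q) (Localization.AtPrime Q)) := by
    rw [halg]
    infer_instance
  have hflat : Module.Flat (Localization.AtPrime q) (Localization.AtPrime Q) := inferInstance
  have hcomp : (algebraMap (Localization.AtPrime q) (Localization.AtPrime Q)).comp
      (algebraMap A (Localization.AtPrime q)) =
      (algebraMap B (Localization.AtPrime Q)).comp (algebraMap A B) := by
    ext x
    rw [halg]
    exact Localization.localRingHom_to_map q Q (algebraMap A B) hc.symm x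
  have hmap : ∀ I : Ideal A, ((I.map (algebraMap A (Localization.AtPrime q))).map
      (algebraMap (Localization.AtPrime q) (Localization.AtPrime Q))) =
      (I.map (algebraMap A B)).map (algebraMap B (Localization.AtPrime Q)) := by
    intro I
    rw [Ideal.map_map, Ideal.map_map, hcomp]
  have hmax : (IsLocalRing.maximalIdeal (Localization.AtPrime q)).map
      (algebraMap (Localization.AtPrime q) (Localization.AtPrime Q)) =
      IsLocalRing.maximalIdeal (Localization.AtPrime Q) := by
    have h1 := Localization.AtPrime.map_eq_maximalIdeal (I := q)
    have h2 := Localization.AtPrime.map_eq_maximalIdeal (I := Q)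
    rw [← h1, hmap, ← hQ, h2]
  have hone : Module.length (Localization.AtPrime Q) (Localization.AtPrime Q ⧸
      (IsLocalRing.maximalIdeal (Localization.AtPrime q)).map
        (algebraMap (Localization.AtPrime q) (Localization.AtPrime Q))) = 1 := by
    rw [hmax, Module.length_eq_one_iff]
    have : IsSimpleModule (Localization.AtPrime Q)
        (Localization.AtPrime Q ⧸ IsLocalRing.maximalIdeal (Localization.AtPrime Q)) := by
      rw [isSimpleModule_iff_isCoatom]
      exact (IsLocalRing.maximalIdeal.isMaximal _).out
    exact this
  have hbc := IsLocalRing.length_baseChange (Localization.AtPrime q) (Localization.AtPrime Q)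
    (Localization.AtPrime q ⧸
      (P ⊔ Ideal.span {f}).map (algebraMap A (Localization.AtPrime q)))
  rw [hone, mul_one] at hbc
  have he := (Algebra.TensorProduct.quotIdealMapEquivTensorQuot (Localization.AtPrime Q)
    ((P ⊔ Ideal.span {f}).map (algebraMap A (Localization.AtPrime q)))).toLinearEquiv.length_eq
  have hI : ((P ⊔ Ideal.span {f}).map (algebraMap A (Localization.AtPrime q))).map
      (algebraMap (Localization.AtPrime q) (Localization.AtPrime Q)) =
      (P.map (algebraMap A B) ⊔ Ideal.span {algebraMap A B f}).map
        (algebraMap B (Localization.AtPrime Q)) := by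
    rw [hmap, Ideal.map_sup, Ideal.map_span, Set.image_singleton]
  unfold mult
  rw [← hI, he, hbc]

end Pool.Agent.Helper41.PP
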