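import Mathlib

/-!
PROOF.
`height_map_flat`: `Ideal.height_eq_height_add_of_liesOver_of_hasGoingDown` with `P = Q`: the image
of `Q = q B` in `B / q B` is the zero ideal of a domain, of height zero (`Ideal.height_bot`);
flat implies going down (there is an instance for `Module.Flat`).

`height_poly`: `P` a prime of `R[X]`, `p` its contraction, `P` not equal to `p R[X]`. Localise at
`p` as in the proof of `Polynomial.height_eq_height_add_one` in
Mathlib/RingTheory/KrullDimension/Polynomial.lean (copy it): `Rp = Localization.AtPrime p`,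
`P'` the extension of `P` to `Rp[X]`, same height, lies over the maximal ideal `p'` of `Rp`.
Now `P'` is maximal: it strictly contains `p' Rp[X]` (otherwise contracting gives
`P = p R[X]`), and `Rp[X] / p' Rp[X] = kappa[X]` with `kappa` a field
(`Ideal.polynomialQuotientEquivQuotientPolynomial`), where nonzero primes are maximal. Then apply
`Polynomial.height_eq_height_add_one p' P'`.
-/

namespace Pool.Agent.Helper41.PP

open Polynomial

private theorem noeth_of_ff {A B : Type} [CommRing A] [CommRing B] [Algebra A B]
    [Module.FaithfullyFlat A B] [IsNoetherianRing B] : IsNoetherianRing A := by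
  have hmono : StrictMono (fun I : Ideal A => I.map (algebraMap A B)) := by
    intro I J hIJ
    refine lt_of_le_of_ne (Ideal.map_mono hIJ.le) fun h => hIJ.ne ?_
    exact Ideal.map_injective_of_faithfullyFlat h
  rw [isNoetherianRing_iff, isNoetherian_iff']
  have : WellFoundedGT (Ideal B) := inferInstance
  exact StrictMono.wellFoundedGT hmono

private theorem height_loc {B : Type} [CommRing B] (Q : Ideal B) [Q.IsPrime] :
    Q.height = (IsLocalRing.maximalIdeal (Localization.AtPrime Q)).height := by
  have h := IsLocalization.height_under Q.primeCompl (A := Localization.AtPrime Q)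
    (IsLocalRing.maximalIdeal (Localization.AtPrime Q))
  rw [IsLocalization.AtPrime.under_maximalIdeal (Localization.AtPrime Q) Q] at h
  exact h

theorem height_map_flat {A B : Type} [CommRing A] [CommRing B] [Algebra A B] [Module.Flat A B]
    [IsNoetherianRing B] (q : Ideal A) [q.IsPrime] (Q : Ideal B) [Q.IsPrime]
    (hQ : Q = q.map (algebraMap A B)) (hc : Q.comap (algebraMap A B) = q) :
    Q.height = q.height := by
  have hlo : Q.LiesOver q := ⟨hc.symm⟩
  let := Localization.AtPrime.algebraOfLiesOver q Q
  have hloc : IsLocalHom (algebraMap (Localization.AtPrime q) (Localization.AtPrime Q)) := by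
    rw [RingHom.algebraMap_toAlgebra]
    exact Localization.isLocalHom_localRingHom q Q (algebraMap A B) Ideal.LiesOver.over
  have hff : Module.FaithfullyFlat (Localization.AtPrime q) (Localization.AtPrime Q) :=
    Module.FaithfullyFlat.of_flat_of_isLocalHom
  have hN : IsNoetherianRing (Localization.AtPrime q) :=
    noeth_of_ff (A := Localization.AtPrime q) (B := Localization.AtPrime Q)
  have h3 : Ideal.map (algebraMap B (Localization.AtPrime Q)) Q =
      Ideal.map (algebraMap B (Localization.AtPrime Q)) (q.map (algebraMap A B)) :=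
    congrArg (fun I => Ideal.map (algebraMap B (Localization.AtPrime Q)) I) hQ
  have hm : IsLocalRing.maximalIdeal (Localization.AtPrime Q) =
      (IsLocalRing.maximalIdeal (Localization.AtPrime q)).map
        (algebraMap (Localization.AtPrime q) (Localization.AtPrime Q)) := by
    rw [← Localization.AtPrime.map_eq_maximalIdeal, ← Localization.AtPrime.map_eq_maximalIdeal,
      Ideal.map_map, ← IsScalarTower.algebraMap_eq, h3, Ideal.map_map,
      ← IsScalarTower.algebraMap_eq]
  have hml : (IsLocalRing.maximalIdeal (Localization.AtPrime Q)).LiesOver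
      (IsLocalRing.maximalIdeal (Localization.AtPrime q)) := inferInstance
  rw [height_loc Q, height_loc q, Ideal.height_eq_height_add_of_liesOver_of_hasGoingDown
    (IsLocalRing.maximalIdeal (Localization.AtPrime q))
    (IsLocalRing.maximalIdeal (Localization.AtPrime Q)), ← hm, Ideal.map_quotient_self]
  have hnt : Nontrivial
      (Localization.AtPrime Q ⧸ IsLocalRing.maximalIdeal (Localization.AtPrime Q)) :=
    Ideal.Quotient.nontrivial_iff.mpr Ideal.IsPrime.ne_top'
  rw [Ideal.height_bot, add_zero]

open Ideal IsLocalization in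
attribute [local instance] Polynomial.algebra Polynomial.isLocalization in
private theorem height_poly_aux {R : Type} [CommRing R] [IsNoetherianRing R] (P : Ideal R[X]) [P.IsPrime]
    (hne : P ≠ (P.comap (C : R →+* R[X])).map (C : R →+* R[X])) :
    P.height = (P.comap (C : R →+* R[X])).height + 1 := by
  set p : Ideal R := P.comap (C : R →+* R[X]) with hp
  have hpp : p.IsPrime := by rw [hp]; infer_instance
  have hlo : P.LiesOver p := ⟨rfl⟩
  let Rₚ := Localization.AtPrime p
  set p' : Ideal Rₚ := p.map (algebraMap R Rₚ) with p'_def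
  have hp'm : p'.IsMaximal := by
    rw [p'_def, Localization.AtPrime.map_eq_maximalIdeal]
    exact IsLocalRing.maximalIdeal.isMaximal Rₚ
  let P' : Ideal Rₚ[X] := P.map (algebraMap R[X] Rₚ[X])
  have disj : Disjoint (p.primeCompl.map C : Set R[X]) P := by
    refine Set.disjoint_left.mpr fun a ⟨b, hb⟩ ha ↦ hb.1 ?_
    rwa [SetLike.mem_coe, LiesOver.over (P := P) (p := p), mem_comap, algebraMap_eq, hb.2]
  have eq := under_map_of_isPrime_disjoint _ Rₚ[X] ‹P.IsPrime› disj
  have hP'p : P'.IsPrime := isPrime_of_isPrime_disjoint (p.primeCompl.map C) _ P ‹_› disj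
  have hlo' : P'.LiesOver p' := liesOver_of_isPrime_of_disjoint p.primeCompl _ _ disj
  have hP'm : P'.IsMaximal := by
    let _ : Field (Rₚ ⧸ p') := Quotient.field p'
    have hle : p'.map (C : Rₚ →+* Rₚ[X]) ≤ P' := by
      rw [map_le_iff_le_comap]
      exact le_of_eq (LiesOver.over (P := P') (p := p'))
    have hneP : P' ≠ p'.map (C : Rₚ →+* Rₚ[X]) := by
      intro h
      apply hne
      have h1 : P'.under R[X] = P := eq
      have h2 : p'.map (C : Rₚ →+* Rₚ[X]) = (p.map C).map (algebraMap R[X] Rₚ[X]) := by
        rw [p'_def, Ideal.map_map, Ideal.map_map]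
        congr 1
        ext r
        simp [Polynomial.algebraMap_def]
      have h3 : ((p.map (C : R →+* R[X])).map (algebraMap R[X] Rₚ[X])).under R[X] =
          p.map (C : R →+* R[X]) := by
        have hprm : (p.map (C : R →+* R[X])).IsPrime := isPrime_map_C_of_isPrime
        refine under_map_of_isPrime_disjoint (p.primeCompl.map C) Rₚ[X] hprm ?_
        refine Set.disjoint_left.mpr fun a ⟨b, hb⟩ ha ↦ hb.1 ?_
        have hb2 : (C b : R[X]) = a := hb.2
        rw [← hb2] at ha
        have h4 := (mem_map_C_iff (I := p) (f := C b)).mp ha 0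
        simpa using h4
      rw [← h1, h, h2, h3]
    let e : (Rₚ[X] ⧸ (p'.map (C : Rₚ →+* Rₚ[X]))) ≃+* (Rₚ ⧸ p')[X] :=
      (polynomialQuotientEquivQuotientPolynomial p').symm
    have hker : RingHom.ker (Ideal.Quotient.mk (p'.map (C : Rₚ →+* Rₚ[X]))) ≤ P' := by
      rw [mk_ker]; exact hle
    have hq1 : (P'.map (Ideal.Quotient.mk (p'.map (C : Rₚ →+* Rₚ[X])))).IsPrime :=
      map_isPrime_of_surjective Quotient.mk_surjective hker
    have hq2 : ((P'.map (Ideal.Quotient.mk (p'.map (C : Rₚ →+* Rₚ[X])))).map e).IsPrime :=
      map_isPrime_of_equiv e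
    have hq3 : ((P'.map (Ideal.Quotient.mk (p'.map (C : Rₚ →+* Rₚ[X])))).map e) ≠ ⊥ := by
      intro h
      have h5 : P'.map (Ideal.Quotient.mk (p'.map (C : Rₚ →+* Rₚ[X]))) = ⊥ := by
        rw [eq_bot_iff]
        intro x hx
        have h6 : e x ∈ (P'.map (Ideal.Quotient.mk (p'.map (C : Rₚ →+* Rₚ[X])))).map e :=
          mem_map_of_mem _ hx
        rw [h, mem_bot] at h6
        rw [mem_bot]
        exact (map_eq_zero_iff e e.injective).mp h6
      apply hneP
      refine le_antisymm ?_ hle
      have h7 := map_eq_bot_iff_le_ker (Ideal.Quotient.mk (p'.map (C : Rₚ →+* Rₚ[X]))) |>.mp h5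
      rwa [mk_ker] at h7
    have hq4 : ((P'.map (Ideal.Quotient.mk (p'.map (C : Rₚ →+* Rₚ[X])))).map e).IsMaximal :=
      IsPrime.to_maximal_ideal hq3
    have hq5 : (P'.map (Ideal.Quotient.mk (p'.map (C : Rₚ →+* Rₚ[X])))).IsMaximal := by
      have h8 := map_isMaximal_of_equiv e.symm
        (p := (P'.map (Ideal.Quotient.mk (p'.map (C : Rₚ →+* Rₚ[X])))).map e)
      rwa [Ideal.map_symm, comap_map_of_bijective e e.bijective] at h8
    have hq6 := comap_isMaximal_of_surjective
      (Ideal.Quotient.mk (p'.map (C : Rₚ →+* Rₚ[X]))) Ideal.Quotient.mk_surjective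
      (K := P'.map (Ideal.Quotient.mk (p'.map (C : Rₚ →+* Rₚ[X]))))
    rwa [comap_map_of_surjective _ Ideal.Quotient.mk_surjective, ← RingHom.ker_eq_comap_bot,
      sup_eq_left.mpr hker] at hq6
  have eq1 : p.height = p'.height := by
    rw [height_map_of_disjoint p.primeCompl]
    exact Disjoint.symm <| Set.disjoint_left.mpr fun _ a b ↦ b a
  have eq2 : P.height = P'.height := by
    rw [height_map_of_disjoint (Submonoid.map C <| p.primeCompl) _ disj]
  rw [eq1, eq2]
  exact Polynomial.height_eq_height_add_one p' P'

theorem height_poly {R : Type} [CommRing R] [IsNoetherianRing R] (P : Ideal R[X]) [P.IsPrime]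
    (hne : P ≠ (P.comap (C : R →+* R[X])).map (C : R →+* R[X])) :
    P.height = (P.comap (C : R →+* R[X])).height + 1 := by
  exact height_poly_aux P hne

end Pool.Agent.Helper41.PP
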