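import Pool.Agent.Helper41.PP.Defs

/-!
PROOF.
`mult_eq_zero`: `f` is a unit in `Localization.AtPrime Q`, the quotient is trivial
(`Module.length_eq_zero`).

`minimal_of`: a prime `Q'` with `P ⊔ (f) ≤ Q' ≤ Q` has `P < Q'`, so
`Q'.height ≥ P.height + 1` (`Ideal.height_add_one_le_of_lt_of_isPrime`), so `Q' = Q`
(`Ideal.eq_of_le_of_height_le` or `Ideal.height_strict_mono_of_isPrime`; heights are finite in a
Noetherian ring).

`mult_pos`: the quotient of `Localization.AtPrime Q` by the extension of `P ⊔ (f)` is artinian and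
noetherian because `Q` is a minimal prime over `P ⊔ (f)`
(`IsLocalRing.quotient_artinian_of_mem_minimalPrimes_of_isLocalRing` in
Mathlib/RingTheory/Ideal/KrullsHeightTheorem.lean), so its length is not `⊤`
(`Module.length_ne_top`), and it is nontrivial because `P ⊔ (f) ≤ Q`, so its length is not 0.

`finite_supp`: contained in the set of minimal primes of `P ⊔ (f)`
(`Ideal.finite_minimalPrimes_of_isNoetherianRing`).

`mult_pow`: let `D = Localization.AtPrime Q / P`, a domain (P extended is prime since `P ≤ Q`);
`mult P Q f = (Ring.ord D f).toNat` (length over a quotient ring is the same,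
`Module.length_eq_of_surjective`; `DoubleQuot` for the quotients), and `Ring.ord_pow`.
-/

namespace Pool.Agent.Helper41.PP

theorem mult_eq_zero {A : Type} [CommRing A] (P Q : Ideal A) [Q.IsPrime] (f : A) (hf : f ∉ Q) :
    mult P Q f = 0 := by
  have hu : IsUnit (algebraMap A (Localization.AtPrime Q) f) :=
    IsLocalization.map_units (M := Q.primeCompl) _ ⟨f, hf⟩
  have hT : (P ⊔ Ideal.span {f}).map (algebraMap A (Localization.AtPrime Q)) = ⊤ :=
    Ideal.eq_top_of_isUnit_mem _
      (Ideal.mem_map_of_mem _ (Ideal.mem_sup_right (Ideal.mem_span_singleton_self f))) hu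
  have hs : Subsingleton (Localization.AtPrime Q ⧸
      (P ⊔ Ideal.span {f}).map (algebraMap A (Localization.AtPrime Q))) := by
    rw [Ideal.Quotient.subsingleton_iff]
    exact hT
  unfold mult
  rw [Module.length_eq_zero]
  rfl

theorem minimal_of {A : Type} [CommRing A] [IsNoetherianRing A] (P Q : Ideal A) [P.IsPrime]
    [Q.IsPrime] (hPQ : P ≤ Q) (hh : Q.height ≤ P.height + 1) (f : A) (hfP : f ∉ P)
    (hfQ : f ∈ Q) : Q ∈ (P ⊔ Ideal.span {f}).minimalPrimes := by
  refine ⟨⟨inferInstance, sup_le hPQ ((Ideal.span_singleton_le_iff_mem Q).2 hfQ)⟩, ?_⟩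
  rintro Q' ⟨hQ', hle⟩ hQQ'
  have hfQ' : f ∈ Q' := hle (Ideal.mem_sup_right (Ideal.mem_span_singleton_self f))
  have hlt : P < Q' := by
    refine lt_of_le_of_ne (le_sup_left.trans hle) ?_
    rintro rfl
    exact hfP hfQ'
  have h1 := Ideal.height_add_one_le_of_lt_of_isPrime hlt
  by_contra hne
  have hlt2 : Q' < Q := lt_of_le_of_ne hQQ' (fun h => hne (h ▸ le_rfl))
  have h2 := Ideal.height_strict_mono_of_isPrime hlt2
  exact absurd (h2.trans_le (hh.trans h1)) (lt_irrefl _)

theorem mult_pos {A : Type} [CommRing A] [IsNoetherianRing A] (P Q : Ideal A) [P.IsPrime]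
    [Q.IsPrime] (hPQ : P ≤ Q) (hh : Q.height ≤ P.height + 1) (f : A) (hfP : f ∉ P)
    (hfQ : f ∈ Q) : 0 < mult P Q f := by
  have hm := minimal_of P Q hPQ hh f hfP hfQ
  set I := P ⊔ Ideal.span {f} with hI
  have hm2 : IsLocalRing.maximalIdeal (Localization.AtPrime Q) ∈
      (I.map (algebraMap A (Localization.AtPrime Q))).minimalPrimes := by
    rw [IsLocalization.minimalPrimes_map Q.primeCompl (Localization.AtPrime Q) I,
      Set.mem_preimage, Localization.AtPrime.under_maximalIdeal]
    exact hm
  have : IsNoetherianRing (Localization.AtPrime Q) :=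
    IsLocalization.isNoetherianRing Q.primeCompl _ inferInstance
  have hart := IsLocalRing.quotient_artinian_of_mem_minimalPrimes_of_isLocalRing
    (I.map (algebraMap A (Localization.AtPrime Q))) hm2
  have hne : Nontrivial (Localization.AtPrime Q ⧸
      I.map (algebraMap A (Localization.AtPrime Q))) := by
    rw [Ideal.Quotient.nontrivial_iff]
    intro h
    have := hm2.1.2
    rw [h] at this
    exact hm2.1.1.ne_top (top_le_iff.1 this)
  have hlen : Module.length (Localization.AtPrime Q)
      (Localization.AtPrime Q ⧸ I.map (algebraMap A (Localization.AtPrime Q))) =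
      Module.length (Localization.AtPrime Q ⧸ I.map (algebraMap A (Localization.AtPrime Q)))
        (Localization.AtPrime Q ⧸ I.map (algebraMap A (Localization.AtPrime Q))) :=
    Module.length_eq_of_surjective Ideal.Quotient.mk_surjective
  have hfin : Module.length (Localization.AtPrime Q)
      (Localization.AtPrime Q ⧸ I.map (algebraMap A (Localization.AtPrime Q))) ≠ ⊤ := by
    rw [hlen]
    exact Module.length_ne_top
  have hpos : 0 < Module.length (Localization.AtPrime Q)
      (Localization.AtPrime Q ⧸ I.map (algebraMap A (Localization.AtPrime Q))) :=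
    Module.length_pos
  unfold mult
  rw [← hI]
  rw [Nat.pos_iff_ne_zero]
  intro h
  rcases (ENat.toNat_eq_zero).1 h with h | h
  · exact hpos.ne' h
  · exact hfin h

theorem finite_supp {A : Type} [CommRing A] [IsNoetherianRing A] (P : Ideal A) [P.IsPrime]
    (f : A) (hfP : f ∉ P) :
    {Q : Ideal A | Q.IsPrime ∧ P ≤ Q ∧ f ∈ Q ∧ Q.height ≤ P.height + 1}.Finite := by
  refine ((P ⊔ Ideal.span {f}).finite_minimalPrimes_of_isNoetherianRing A).subset ?_
  rintro Q ⟨hQ, hPQ, hfQ, hh⟩
  exact minimal_of P Q hPQ hh f hfP hfQ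

private theorem mult_eq_ord {A : Type} [CommRing A] (P Q : Ideal A) [Q.IsPrime] (f : A) :
    mult P Q f = (Ring.ord (Localization.AtPrime Q ⧸ P.map (algebraMap A (Localization.AtPrime Q)))
      (Ideal.Quotient.mk _ (algebraMap A (Localization.AtPrime Q) f))).toNat := by
  have h1 : (P ⊔ Ideal.span {f}).map (algebraMap A (Localization.AtPrime Q)) =
      P.map (algebraMap A (Localization.AtPrime Q)) ⊔
        Ideal.span {algebraMap A (Localization.AtPrime Q) f} := by
    rw [Ideal.map_sup, Ideal.map_span, Set.image_singleton]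
  unfold mult
  rw [h1, Ring.ord]
  congr 1
  have e := (DoubleQuot.quotQuotEquivQuotSupₐ (Localization.AtPrime Q)
    (P.map (algebraMap A (Localization.AtPrime Q)))
    (Ideal.span {algebraMap A (Localization.AtPrime Q) f})).toLinearEquiv.length_eq
  rw [← e]
  have h2 : (Ideal.span {algebraMap A (Localization.AtPrime Q) f}).map
      (Ideal.Quotient.mkₐ (Localization.AtPrime Q)
        (P.map (algebraMap A (Localization.AtPrime Q)))) =
      Ideal.span {Ideal.Quotient.mk (P.map (algebraMap A (Localization.AtPrime Q)))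
        (algebraMap A (Localization.AtPrime Q) f)} := by
    rw [Ideal.map_span, Set.image_singleton]
    rfl
  rw [h2]
  exact Module.length_eq_of_surjective Ideal.Quotient.mk_surjective

theorem mult_pow {A : Type} [CommRing A] [IsNoetherianRing A] (P Q : Ideal A) [P.IsPrime]
    [Q.IsPrime] (hPQ : P ≤ Q) (hh : Q.height ≤ P.height + 1) (f : A) (hfP : f ∉ P) (n : ℕ) :
    mult P Q (f ^ n) = n * mult P Q f := by
  have hprime : (P.map (algebraMap A (Localization.AtPrime Q))).IsPrime :=
    Q.isPrime_map_of_isLocalizationAtPrime hPQ (S := Localization.AtPrime Q)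
  have hdom : IsDomain (Localization.AtPrime Q ⧸
      P.map (algebraMap A (Localization.AtPrime Q))) := Ideal.Quotient.isDomain _
  have hne : (Ideal.Quotient.mk (P.map (algebraMap A (Localization.AtPrime Q)))
      (algebraMap A (Localization.AtPrime Q) f)) ≠ 0 := by
    intro h
    rw [Ideal.Quotient.eq_zero_iff_mem] at h
    have h3 : f ∈ (P.map (algebraMap A (Localization.AtPrime Q))).comap
        (algebraMap A (Localization.AtPrime Q)) := h
    have h4 := Q.under_map_of_isLocalizationAtPrime hPQ (S := Localization.AtPrime Q)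
    rw [Ideal.under] at h4
    rw [h4] at h3
    exact hfP h3
  rw [mult_eq_ord, mult_eq_ord, map_pow, map_pow,
    Ring.ord_pow (mem_nonZeroDivisors_of_ne_zero hne), nsmul_eq_mul, ENat.toNat_mul,
    ENat.toNat_natCast]

end Pool.Agent.Helper41.PP
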