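import Pool.Agent.Helper41.PP.Flat
import Pool.Agent.Helper41.PP.Supp
import Pool.Agent.Helper41.PP.Height
import Pool.Agent.Helper41.PP.Hom

/-!
A good extension `ι : MvPolynomial σ κ → MvPolynomial σ' κ'`: flat, extended primes are prime and
contract back, and `ι` commutes with the homogeneous components.

PROOFS (σ, σ' finite, so both rings are noetherian).
`exists_div`: the function `Q ↦ mult P Q f` (if `P ≤ Q`, else 0) on `Sub w I c` has finite support
(`mult_eq_zero`, `finite_supp`, `Sub.ideal` is injective) when `b + 1 = c`.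
`isDiv_unique`: clear.
`ext_height`: `height_map_flat`. `ext_sub`: the extension of a member of `Sub w I c` is a member
of `Sub w' I' c` when `I' ≤ I.map ι` (homogeneous: generated by the images of the homogeneous
elements, `homId_span`, using `hι.comp`).
`ext_unique`: let `P ∈ Sub w I b`, `f ∉ P`, `𝔔` a prime of the big ring with `P.map ι ≤ 𝔔`,
`ι f ∈ 𝔔` and `𝔔.height ≤ b + 1`: then `q = 𝔔.comap ι` strictly contains `P` (`f ∈ q`), `q.map ι ≤ 𝔔`
has height `q.height ≥ b + 1`, so `𝔔 = q.map ι` (and `q.height = b + 1`).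
`push_div`: `IsDiv P f r`, `f ∉ P` gives that `IsDiv (ext P) (ι f) (r.mapDomain ext)` : at `ext q`
both sides are equal by `mult_flat` (ext is injective: contraction); at `𝔔` not of the form
`ext q` with `ι f ∈ 𝔔` and `P.map ι ≤ 𝔔`: impossible by `ext_unique` (`q` is then in `Sub w I c`:
homogeneous because `𝔔` is and `hι.comp`; it contains `I` since it contains `P`), otherwise both
sides are 0.
`push_cone`, `push_rel`: span induction, `Finsupp.mapDomain` is linear.
-/

namespace Pool.Agent.Helper41.PP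

open MvPolynomial

/-- Good extensions. -/
structure GoodExt {σ σ' κ κ' : Type} [Field κ] [Field κ'] (w : σ → ℕ) (w' : σ' → ℕ)
    (ι : MvPolynomial σ κ →+* MvPolynomial σ' κ') : Prop where
  flat : ι.Flat
  prime : ∀ q : Ideal (MvPolynomial σ κ), q.IsPrime → (q.map ι).IsPrime
  comap : ∀ q : Ideal (MvPolynomial σ κ), q.IsPrime → (q.map ι).comap ι = q
  comp : ∀ (d : ℕ) (f : MvPolynomial σ κ),
    ι (weightedHomogeneousComponent w d f) = weightedHomogeneousComponent w' d (ι f)

variable {σ σ' κ κ' : Type} [Finite σ] [Finite σ'] [Field κ] [Field κ'] {w : σ → ℕ}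
  {w' : σ' → ℕ} {ι : MvPolynomial σ κ →+* MvPolynomial σ' κ'}

omit [Finite σ] in
theorem sub_ext {I : Ideal (MvPolynomial σ κ)} {c : ℕ} {P Q : Sub w I c}
    (h : P.ideal = Q.ideal) : P = Q := by
  cases P
  cases Q
  simp only at h
  subst h
  rfl

theorem exists_div {I : Ideal (MvPolynomial σ κ)} {b c : ℕ} (hbc : b + 1 = c) (P : Sub w I b)
    (f : MvPolynomial σ κ) (hf : f ∉ P.ideal) : ∃ r : Sub w I c →₀ ℚ, IsDiv P f r := by
  classical
  have hfin : (Function.support (fun Q : Sub w I c =>
      if P.ideal ≤ Q.ideal then (mult P.ideal Q.ideal f : ℚ) else 0)).Finite := by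
    have h1 := finite_supp P.ideal f hf
    have h2 : Function.Injective (fun Q : Sub w I c => Q.ideal) := fun Q Q' h => sub_ext h
    refine (h1.preimage h2.injOn).subset ?_
    intro Q hQ
    rw [Function.mem_support] at hQ
    by_cases hPQ : P.ideal ≤ Q.ideal
    · rw [if_pos hPQ] at hQ
      refine ⟨Q.prime, hPQ, ?_, ?_⟩
      · by_contra hfQ
        apply hQ
        rw [mult_eq_zero _ _ _ hfQ]
        simp
      · show Q.ideal.height ≤ P.ideal.height + 1
        rw [Q.height, P.height, ← hbc]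
        push_cast
        exact le_refl _
    · rw [if_neg hPQ] at hQ
      exact absurd rfl hQ
  refine ⟨Finsupp.ofSupportFinite _ hfin, ?_⟩
  intro Q
  rw [Finsupp.ofSupportFinite_coe]
  exact ⟨fun h => if_pos h, fun h => if_neg h⟩

private theorem whc_ext (hι : GoodExt w w' ι) {g : MvPolynomial σ κ} {d : ℕ}
    (hg : IsWeightedHomogeneous w g d) : IsWeightedHomogeneous w' (ι g) d := by
  have h := hι.comp d g
  rw [hg.weightedHomogeneousComponent_same] at h
  rw [h]
  exact weightedHomogeneousComponent_isWeightedHomogeneous _ _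

private theorem homId_ext_map (hι : GoodExt w w' ι) (q : Ideal (MvPolynomial σ κ))
    (hq : HomId w q) : HomId w' (q.map ι) := by
  have h1 : q = Ideal.span {f | f ∈ q ∧ ∃ d, IsWeightedHomogeneous w f d} := by
    apply le_antisymm
    · refine homId_ext w q _ hq ?_
      intro f d hf hfq
      exact Ideal.subset_span ⟨hfq, d, hf⟩
    · rw [Ideal.span_le]
      intro f hf
      exact hf.1
  rw [h1, Ideal.map_span]
  apply homId_span
  rintro f ⟨g, ⟨_, d, hg⟩, rfl⟩
  exact ⟨d, whc_ext hι hg⟩

private theorem height_ext (hι : GoodExt w w' ι) (q : Ideal (MvPolynomial σ κ)) [q.IsPrime] :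
    (q.map ι).height = q.height := by
  letI := ι.toAlgebra
  haveI : Module.Flat (MvPolynomial σ κ) (MvPolynomial σ' κ') := hι.flat
  haveI : (q.map ι).IsPrime := hι.prime q inferInstance
  exact height_map_flat q (q.map ι) rfl (hι.comap q inferInstance)

private theorem mult_ext (hι : GoodExt w w' ι) (P q : Ideal (MvPolynomial σ κ)) [q.IsPrime]
    (Q : Ideal (MvPolynomial σ' κ')) [Q.IsPrime] (hQ : Q = q.map ι) (f : MvPolynomial σ κ) :
    mult (P.map ι) Q (ι f) = mult P q f := by
  letI := ι.toAlgebra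
  haveI : Module.Flat (MvPolynomial σ κ) (MvPolynomial σ' κ') := hι.flat
  have hc : Q.comap ι = q := by
    rw [hQ]
    exact hι.comap q inferInstance
  exact mult_flat P q Q hQ hc f

/-- The extension of a subvariety. -/
theorem exists_ext (hι : GoodExt w w' ι) {I : Ideal (MvPolynomial σ κ)}
    {I' : Ideal (MvPolynomial σ' κ')} (hI : I' ≤ I.map ι) (c : ℕ) :
    ∃ e : Sub w I c → Sub w' I' c, ∀ q, (e q).ideal = q.ideal.map ι := by
  refine ⟨fun q => ⟨q.ideal.map ι, hι.prime _ q.prime, ?_, ?_, ?_⟩, fun q => rfl⟩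
  · exact homId_ext_map hι q.ideal q.homog
  · exact hI.trans (Ideal.map_mono q.le)
  · rw [height_ext hι, q.height]

theorem ext_unique (hι : GoodExt w w' ι) (P : Ideal (MvPolynomial σ κ)) [P.IsPrime]
    (f : MvPolynomial σ κ) (hf : f ∉ P) (Q : Ideal (MvPolynomial σ' κ')) [Q.IsPrime]
    (hPQ : P.map ι ≤ Q) (hfQ : ι f ∈ Q) (hh : Q.height ≤ P.height + 1) :
    Q = (Q.comap ι).map ι ∧ (Q.comap ι).height = Q.height := by
  have hPq : P ≤ Q.comap ι := Ideal.map_le_iff_le_comap.1 hPQ
  have hlt : P < Q.comap ι := by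
    refine lt_of_le_of_ne hPq ?_
    intro h
    apply hf
    rw [h]
    exact hfQ
  have h1 : P.height + 1 ≤ (Q.comap ι).height := Ideal.height_add_one_le_of_lt_of_isPrime hlt
  have h2 : ((Q.comap ι).map ι).height = (Q.comap ι).height := height_ext hι _
  have h3 : (Q.comap ι).map ι ≤ Q := Ideal.map_comap_le
  haveI h4 : ((Q.comap ι).map ι).IsPrime := hι.prime _ inferInstance
  have h5 : (Q.comap ι).height = Q.height := by
    apply le_antisymm
    · rw [← h2]
      exact Ideal.height_mono h3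
    · exact hh.trans h1
  refine ⟨?_, h5⟩
  by_contra hne
  have h6 : (Q.comap ι).map ι < Q := lt_of_le_of_ne h3 (fun h => hne h.symm)
  have h7 := Ideal.height_strict_mono_of_isPrime_of_isPrime h6
  rw [h2, h5] at h7
  exact lt_irrefl _ h7

theorem push_div (hι : GoodExt w w' ι) {I : Ideal (MvPolynomial σ κ)}
    {I' : Ideal (MvPolynomial σ' κ')} (hI : I' ≤ I.map ι) {b c : ℕ} (hbc : b + 1 = c)
    (e : Sub w I c → Sub w' I' c) (he : ∀ q, (e q).ideal = q.ideal.map ι)
    (P : Sub w I b) (P' : Sub w' I' b) (hP : P'.ideal = P.ideal.map ι)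
    (f : MvPolynomial σ κ) (hf : f ∉ P.ideal) (r : Sub w I c →₀ ℚ) (hr : IsDiv P f r) :
    IsDiv P' (ι f) (r.mapDomain e) := by
  have hinj : Function.Injective e := by
    intro q q' h
    apply sub_ext
    have h1 := congrArg (fun x : Sub w' I' c => x.ideal.comap ι) h
    simp only [he] at h1
    rw [hι.comap q.ideal q.prime, hι.comap q'.ideal q'.prime] at h1
    exact h1
  intro Q
  by_cases hQ : ∃ q, e q = Q
  · obtain ⟨q, rfl⟩ := hQ
    rw [Finsupp.mapDomain_apply hinj]
    constructor
    · intro h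
      have h1 : P.ideal ≤ q.ideal := by
        rw [hP, he] at h
        have h2 := Ideal.comap_mono (f := ι) h
        rw [hι.comap P.ideal P.prime, hι.comap q.ideal q.prime] at h2
        exact h2
      rw [(hr q).1 h1, hP, mult_ext hι P.ideal q.ideal (e q).ideal (he q) f]
    · intro h
      refine (hr q).2 ?_
      intro h1
      apply h
      rw [hP, he]
      exact Ideal.map_mono h1
  · have h0 : Finsupp.mapDomain e r Q = 0 :=
      Finsupp.mapDomain_of_notMem_range _ _ (fun ⟨q, hq⟩ => hQ ⟨q, hq⟩)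
    refine ⟨?_, fun _ => h0⟩
    intro hPQ
    rw [h0]
    by_cases hfQ : ι f ∈ Q.ideal
    · exfalso
      rw [hP] at hPQ
      have hh : Q.ideal.height ≤ P.ideal.height + 1 := by
        rw [Q.height, P.height, ← hbc]
        push_cast
        exact le_refl _
      obtain ⟨h1, h2⟩ := ext_unique hι P.ideal f hf Q.ideal hPQ hfQ hh
      apply hQ
      have hprime : (Q.ideal.comap ι).IsPrime := inferInstance
      refine ⟨⟨Q.ideal.comap ι, hprime, ?_, ?_, ?_⟩, ?_⟩
      · intro g hg d
        show ι (weightedHomogeneousComponent w d g) ∈ Q.ideal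
        rw [hι.comp]
        exact Q.homog _ hg d
      · exact P.le.trans (Ideal.map_le_iff_le_comap.1 hPQ)
      · rw [h2, Q.height]
      · apply sub_ext
        rw [he]
        exact h1.symm
    · rw [mult_eq_zero _ _ _ hfQ]
      simp

private theorem notMem_ext (hι : GoodExt w w' ι) (P : Ideal (MvPolynomial σ κ)) [P.IsPrime]
    {f : MvPolynomial σ κ} (hf : f ∉ P) : ι f ∉ P.map ι := by
  intro h
  apply hf
  have h1 : f ∈ (P.map ι).comap ι := h
  rw [hι.comap P inferInstance] at h1
  exact h1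

theorem push_cone (hι : GoodExt w w' ι) {I : Ideal (MvPolynomial σ κ)}
    {I' : Ideal (MvPolynomial σ' κ')} (hI : I' ≤ I.map ι) {c : ℕ}
    (e : Sub w I c → Sub w' I' c) (he : ∀ q, (e q).ideal = q.ideal.map ι)
    (r : Sub w I c →₀ ℚ) (hr : r ∈ ConeRel w I c) : r.mapDomain e ∈ ConeRel w' I' c := by
  unfold ConeRel at hr
  induction hr using Submodule.span_induction with
  | mem r hr =>
    obtain ⟨b, P, d, f, hbc, hfd, hf, hdiv⟩ := hr
    obtain ⟨eb, heb⟩ := exists_ext hι hI b
    refine Submodule.subset_span ⟨b, eb P, d, ι f, hbc, whc_ext hι hfd, ?_, ?_⟩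
    · rw [heb]
      exact notMem_ext hι P.ideal hf
    · exact push_div hι hI hbc e he P (eb P) (heb P) f hf r hdiv
  | zero =>
    rw [Finsupp.mapDomain_zero]
    exact Submodule.zero_mem _
  | add x y _ _ hx hy =>
    rw [Finsupp.mapDomain_add]
    exact Submodule.add_mem _ hx hy
  | smul a x _ hx =>
    rw [Finsupp.mapDomain_smul]
    exact Submodule.smul_mem _ _ hx

theorem push_rel (hι : GoodExt w w' ι) {I : Ideal (MvPolynomial σ κ)}
    {I' : Ideal (MvPolynomial σ' κ')} (hI : I' ≤ I.map ι) {c : ℕ}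
    (e : Sub w I c → Sub w' I' c) (he : ∀ q, (e q).ideal = q.ideal.map ι)
    (r : Sub w I c →₀ ℚ) (hr : r ∈ Rel w I c) : r.mapDomain e ∈ Rel w' I' c := by
  unfold Rel at hr
  induction hr using Submodule.span_induction with
  | mem r hr =>
    obtain ⟨b, P, d, f, g, u, v, hbc, hfd, hgd, hf, hg, hu, hv, huv⟩ := hr
    obtain ⟨eb, heb⟩ := exists_ext hι hI b
    obtain ⟨ru, hru⟩ := exists_div (w := w) hbc P f hf
    obtain ⟨rv, hrv⟩ := exists_div (w := w) hbc P g hg
    have hr2 : r = ru - rv := by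
      ext Q
      rw [huv Q, Finsupp.sub_apply]
      by_cases hPQ : P.ideal ≤ Q.ideal
      · rw [(hu Q).1 hPQ, (hv Q).1 hPQ, (hru Q).1 hPQ, (hrv Q).1 hPQ]
      · rw [(hu Q).2 hPQ, (hv Q).2 hPQ, (hru Q).2 hPQ, (hrv Q).2 hPQ]
    refine Submodule.subset_span ⟨b, eb P, d, ι f, ι g, ru.mapDomain e, rv.mapDomain e, hbc,
      whc_ext hι hfd, whc_ext hι hgd, ?_, ?_, ?_, ?_, ?_⟩
    · rw [heb]
      exact notMem_ext hι P.ideal hf
    · rw [heb]
      exact notMem_ext hι P.ideal hg
    · exact push_div hι hI hbc e he P (eb P) (heb P) f hf ru hru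
    · exact push_div hι hI hbc e he P (eb P) (heb P) g hg rv hrv
    · intro Q
      rw [hr2, Finsupp.mapDomain_sub, Finsupp.sub_apply]
  | zero =>
    rw [Finsupp.mapDomain_zero]
    exact Submodule.zero_mem _
  | add x y _ _ hx hy =>
    rw [Finsupp.mapDomain_add]
    exact Submodule.add_mem _ hx hy
  | smul a x _ hx =>
    rw [Finsupp.mapDomain_smul]
    exact Submodule.smul_mem _ _ hx

end Pool.Agent.Helper41.PP
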