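import Pool.Agent.Helper41.PP.LamLoc
import Pool.Agent.Helper41.PP.Push

/-!
Consequences of `lam_loc` for prime ideals, in terms of `Ideal.map` and `Ideal.comap` along the ring
homomorphism `lam σ κ`.

PROOFS. Put `letI := (lam σ κ).toAlgebra`, `haveI := lam_loc σ κ`. `lam_map_comap`:
`IsLocalization.map_comap` (or `map_under`). `lam_prime`, `lam_comap_map`:
`IsLocalization.isPrime_of_isPrime_disjoint`, `IsLocalization.comap_map_of_isPrime_disjoint`
(`under_map_of_isPrime_disjoint`). `lam_disjoint`: an element of `tS` becomes a unit.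
`lam_height`: `IsLocalization.height_comap` / `height_under`. `lam_mult`: `mult_flat`
(localisations are flat, `IsLocalization.flat`) with `Q = (Q.comap lam).map lam`.
`ct_good`: flat: composite of `rn` and `lam` (`lam_rn`); prime: `(q.map rn).map lam`, where
`q.map rn` is disjoint from `tS` (an element `s = p(X none)` of `tS` in `q.map rn`: the coefficients
of `s`, as a polynomial in `X none` over `MvPolynomial σ κ`, are constants, one of them nonzero,
and would lie in `q`); comap: `(q.map rn).comap rn = q`.
-/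

namespace Pool.Agent.Helper41.PP

open MvPolynomial

variable {σ κ : Type} [Field κ]

theorem lam_map_comap (I : Ideal (MvPolynomial σ (RatFunc κ))) :
    (I.comap (lam σ κ)).map (lam σ κ) = I := by
  let := (lam σ κ).toAlgebra
  have := lam_loc σ κ
  exact IsLocalization.map_under (tS σ κ) (MvPolynomial σ (RatFunc κ)) I

theorem lam_prime (q : Ideal (MvPolynomial (Option σ) κ)) [q.IsPrime]
    (hd : Disjoint (tS σ κ : Set (MvPolynomial (Option σ) κ)) q) : (q.map (lam σ κ)).IsPrime := by
  let := (lam σ κ).toAlgebra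
  have := lam_loc σ κ
  exact IsLocalization.isPrime_of_isPrime_disjoint (tS σ κ) (MvPolynomial σ (RatFunc κ)) q
    inferInstance hd

theorem lam_comap_map (q : Ideal (MvPolynomial (Option σ) κ)) [q.IsPrime]
    (hd : Disjoint (tS σ κ : Set (MvPolynomial (Option σ) κ)) q) :
    (q.map (lam σ κ)).comap (lam σ κ) = q := by
  let := (lam σ κ).toAlgebra
  have := lam_loc σ κ
  exact IsLocalization.under_map_of_isPrime_disjoint (tS σ κ) (MvPolynomial σ (RatFunc κ))
    inferInstance hd

theorem lam_disjoint (Q : Ideal (MvPolynomial σ (RatFunc κ))) [Q.IsPrime] :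
    Disjoint (tS σ κ : Set (MvPolynomial (Option σ) κ)) (Q.comap (lam σ κ)) := by
  let := (lam σ κ).toAlgebra
  have := lam_loc σ κ
  exact ((IsLocalization.isPrime_iff_isPrime_disjoint (tS σ κ)
    (MvPolynomial σ (RatFunc κ)) Q).1 inferInstance).2

theorem lam_height [Finite σ] (Q : Ideal (MvPolynomial σ (RatFunc κ))) [Q.IsPrime] :
    Q.height = (Q.comap (lam σ κ)).height := by
  let := (lam σ κ).toAlgebra
  have := lam_loc σ κ
  exact (IsLocalization.height_under (tS σ κ) Q).symm

theorem lam_mult (P Q : Ideal (MvPolynomial σ (RatFunc κ))) [Q.IsPrime]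
    (f : MvPolynomial (Option σ) κ) :
    mult P Q (lam σ κ f) = mult (P.comap (lam σ κ)) (Q.comap (lam σ κ)) f := by
  let := (lam σ κ).toAlgebra
  have := lam_loc σ κ
  have : Module.Flat (MvPolynomial (Option σ) κ) (MvPolynomial σ (RatFunc κ)) :=
    IsLocalization.flat _ (tS σ κ)
  have h := mult_flat (A := MvPolynomial (Option σ) κ) (B := MvPolynomial σ (RatFunc κ))
    (P.comap (lam σ κ)) (Q.comap (lam σ κ)) Q (lam_map_comap Q).symm rfl f
  have h2 : (P.comap (lam σ κ)).map
      (algebraMap (MvPolynomial (Option σ) κ) (MvPolynomial σ (RatFunc κ))) = P :=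
    lam_map_comap P
  rw [h2] at h
  exact h

private lemma left_rn (f : MvPolynomial σ κ) :
    optionEquivLeft κ σ (rn σ κ f) = Polynomial.C f := by
  change optionEquivLeft κ σ (rename Option.some f) = Polynomial.C f
  induction f using MvPolynomial.induction_on with
  | C a => rw [rename_C, optionEquivLeft_C]
  | add p q hp hq => rw [map_add, map_add, hp, hq, Polynomial.C_add]
  | mul_X p i hp => rw [map_mul, map_mul, hp, rename_X, optionEquivLeft_X_some, Polynomial.C_mul]

/-- Coefficients modulo `q`. -/
private noncomputable def phi (q : Ideal (MvPolynomial σ κ)) :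
    MvPolynomial (Option σ) κ →+* Polynomial (MvPolynomial σ κ ⧸ q) :=
  (Polynomial.mapRingHom (Ideal.Quotient.mk q)).comp
    (optionEquivLeft κ σ : MvPolynomial (Option σ) κ →+* Polynomial (MvPolynomial σ κ))

private lemma phi_aeval (q : Ideal (MvPolynomial σ κ)) :
    (phi q).comp (Polynomial.aeval (X none : MvPolynomial (Option σ) κ)).toRingHom =
      Polynomial.mapRingHom ((Ideal.Quotient.mk q).comp (C : κ →+* MvPolynomial σ κ)) := by
  refine Polynomial.ringHom_ext (fun a => ?_) ?_
  · change Polynomial.mapRingHom (Ideal.Quotient.mk q)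
      (optionEquivLeft κ σ (Polynomial.aeval (X none : MvPolynomial (Option σ) κ)
        (Polynomial.C a))) = _
    rw [Polynomial.aeval_C, MvPolynomial.algebraMap_eq, optionEquivLeft_C]
    simp
  · change Polynomial.mapRingHom (Ideal.Quotient.mk q)
      (optionEquivLeft κ σ (Polynomial.aeval (X none : MvPolynomial (Option σ) κ)
        Polynomial.X)) = _
    rw [Polynomial.aeval_X, optionEquivLeft_X_none]
    simp

theorem rn_disjoint (q : Ideal (MvPolynomial σ κ)) [q.IsPrime] :
    Disjoint (tS σ κ : Set (MvPolynomial (Option σ) κ)) (q.map (rn σ κ)) := by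
  rw [Set.disjoint_left]
  rintro s hs hsq
  obtain ⟨p, hp, rfl⟩ := hs
  have hp0 : p ≠ 0 := nonZeroDivisors.ne_zero hp
  have hker : q.map (rn σ κ) ≤ RingHom.ker (phi q) := by
    rw [Ideal.map_le_iff_le_comap]
    intro f hf
    rw [Ideal.mem_comap, RingHom.mem_ker]
    change Polynomial.mapRingHom (Ideal.Quotient.mk q) (optionEquivLeft κ σ (rn σ κ f)) = 0
    rw [left_rn, Polynomial.coe_mapRingHom, Polynomial.map_C,
      Ideal.Quotient.eq_zero_iff_mem.2 hf, Polynomial.C_0]
  have h1 : phi q ((Polynomial.aeval (X none : MvPolynomial (Option σ) κ)).toRingHom p) = 0 :=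
    RingHom.mem_ker.1 (hker hsq)
  have h2 : Polynomial.mapRingHom ((Ideal.Quotient.mk q).comp (C : κ →+* MvPolynomial σ κ)) p
      = 0 := by
    rw [← phi_aeval]
    exact h1
  have : Nontrivial (MvPolynomial σ κ ⧸ q) := Ideal.Quotient.nontrivial_iff.2
    (Ideal.IsPrime.ne_top inferInstance)
  have h3 := Polynomial.map_injective
    ((Ideal.Quotient.mk q).comp (C : κ →+* MvPolynomial σ κ)) (RingHom.injective _)
  exact hp0 (h3 (by rw [Polynomial.map_zero]; exact h2))

private lemma lam_comp_rn (σ κ : Type) [Field κ] :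
    (lam σ κ).comp (rn σ κ) = ct σ κ := RingHom.ext (fun f => lam_rn σ κ f)

theorem ct_map (q : Ideal (MvPolynomial σ κ)) :
    (q.map (rn σ κ)).map (lam σ κ) = q.map (ct σ κ) := by
  rw [Ideal.map_map, lam_comp_rn]

theorem ct_good (w : σ → ℕ) : GoodExt w w (ct σ κ) where
  flat := by
    rw [← lam_comp_rn]
    refine RingHom.Flat.comp (rn_flat σ κ) ?_
    let := (lam σ κ).toAlgebra
    have := lam_loc σ κ
    have : Module.Flat (MvPolynomial (Option σ) κ) (MvPolynomial σ (RatFunc κ)) :=
      IsLocalization.flat _ (tS σ κ)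
    exact RingHom.flat_algebraMap_iff.2 this
  prime q hq := by
    rw [← ct_map]
    have := rn_prime σ κ q
    exact lam_prime (q.map (rn σ κ)) (rn_disjoint q)
  comap q hq := by
    have := rn_prime σ κ q
    have h := lam_comap_map (q.map (rn σ κ)) (rn_disjoint q)
    rw [ct_map] at h
    have h5 : (q.map (ct σ κ)).comap (ct σ κ) =
        ((q.map (ct σ κ)).comap (lam σ κ)).comap (rn σ κ) := by
      rw [Ideal.comap_comap, lam_comp_rn]
    rw [h5, h, rn_comap]
  comp d f := ct_comp w d f

end Pool.Agent.Helper41.PP
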