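import Pool.Agent.Helper41.PP.Opt

/-!
`lam : MvPolynomial (Option σ) κ → MvPolynomial σ (RatFunc κ)`, `none ↦ t`, is the localisation at
the nonzero polynomials in `t = X none`.

PROOF of `lam_loc`. `MvPolynomial.isLocalization` (Mathlib/RingTheory/MvPolynomial/Localization.lean)
with `R = κ[X]`, `M = nonZeroDivisors κ[X]`, `S = RatFunc κ`: `MvPolynomial σ (RatFunc κ)` is the
localisation of `MvPolynomial σ κ[X]` at `M.map C` (algebra structure given by
`MvPolynomial.map (algebraMap κ[X] (RatFunc κ))`). Transport along
`MvPolynomial.optionEquivRight κ σ : MvPolynomial (Option σ) κ ≃ₐ[κ] MvPolynomial σ κ[X]`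
(`IsLocalization.isLocalization_of_base_ringEquiv`), under which `X none ↦ C Polynomial.X`,
`X (some i) ↦ X i`; the composite with `MvPolynomial.map` is `lam` (`MvPolynomial.ringHom_ext`),
and `M.map C` corresponds to `tS`.
`lam_rn`, `lam_comp`: check on `C a` and monomials (`MvPolynomial.induction_on'`,
`weightedHomogeneousComponent` of a monomial); the variable `none` has weight 0.
-/

namespace Pool.Agent.Helper41.PP

open MvPolynomial

noncomputable section

/-- `none ↦ t`, `some i ↦ X i`. -/
def lam (σ κ : Type) [Field κ] : MvPolynomial (Option σ) κ →+* MvPolynomial σ (RatFunc κ) :=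
  eval₂Hom (C.comp (algebraMap κ (RatFunc κ))) (fun o => o.elim (C RatFunc.X) X)

/-- The nonzero polynomials in `X none`. -/
def tS (σ κ : Type) [Field κ] : Submonoid (MvPolynomial (Option σ) κ) :=
  (nonZeroDivisors (Polynomial κ)).map
    (Polynomial.aeval (X none : MvPolynomial (Option σ) κ)).toRingHom

/-- Extension of constants. -/
def ct (σ κ : Type) [Field κ] : MvPolynomial σ κ →+* MvPolynomial σ (RatFunc κ) :=
  MvPolynomial.map (algebraMap κ (RatFunc κ))

/-- The weights on `Option σ`, with weight 0 for `none`. -/
def ow {σ : Type} (w : σ → ℕ) : Option σ → ℕ := fun o => o.elim 0 w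

private theorem comp_map {τ υ A B : Type} [Field A] [Field B]
    (φ : MvPolynomial τ A →+* MvPolynomial υ B) (v : τ → ℕ) (w : υ → ℕ)
    (h : ∀ (m : τ →₀ ℕ) (a : A), IsWeightedHomogeneous w (φ (monomial m a)) (Finsupp.weight v m))
    (d : ℕ) (f : MvPolynomial τ A) :
    φ (weightedHomogeneousComponent v d f) = weightedHomogeneousComponent w d (φ f) := by
  classical
  induction f using MvPolynomial.induction_on' with
  | monomial m a =>
    rw [weightedHomogeneousComponent_of_mem (n := Finsupp.weight v m)
        ((mem_weightedHomogeneousSubmodule _ _ _ _).2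
          (isWeightedHomogeneous_monomial v m a rfl)),
      weightedHomogeneousComponent_of_mem (n := Finsupp.weight v m)
        ((mem_weightedHomogeneousSubmodule _ _ _ _).2 (h m a))]
    split_ifs
    · rfl
    · rw [map_zero]
  | add p q hp hq =>
    rw [map_add, map_add, map_add, map_add, hp, hq]

private theorem hom_of {τ υ A B : Type} [Field A] [Field B] (g : A →+* MvPolynomial υ B)
    (x : τ → MvPolynomial υ B) (v : τ → ℕ) (w : υ → ℕ)
    (hg : ∀ a, IsWeightedHomogeneous w (g a) 0) (hx : ∀ i, IsWeightedHomogeneous w (x i) (v i))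
    (m : τ →₀ ℕ) (a : A) :
    IsWeightedHomogeneous w (eval₂Hom g x (monomial m a)) (Finsupp.weight v m) := by
  rw [eval₂Hom_monomial]
  have h1 : Finsupp.weight v m = 0 + ∑ i ∈ m.support, m i • v i := by
    rw [zero_add, Finsupp.weight_apply, Finsupp.sum]
  rw [h1]
  refine (hg a).mul ?_
  exact IsWeightedHomogeneous.prod _ _ _ fun i _ => (hx i).pow (m i)

private theorem key (σ κ : Type) [Field κ] (p : Polynomial κ) :
    optionEquivRight κ σ (Polynomial.aeval (X none : MvPolynomial (Option σ) κ) p) = C p := by
  induction p using Polynomial.induction_on' with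
  | add p q hp hq => rw [map_add, map_add, map_add, hp, hq]
  | monomial n a =>
    rw [Polynomial.aeval_monomial, MvPolynomial.algebraMap_eq, map_mul, map_pow,
      optionEquivRight_X_none, optionEquivRight_C, ← C_pow, ← C_mul,
      Polynomial.C_mul_X_pow_eq_monomial]

theorem lam_loc (σ κ : Type) [Field κ] :
    @IsLocalization _ _ (tS σ κ) (MvPolynomial σ (RatFunc κ)) _ (lam σ κ).toAlgebra := by
  let _ : Algebra (MvPolynomial σ (Polynomial κ)) (MvPolynomial σ (RatFunc κ)) :=
    algebraMvPolynomial
  have _ : IsLocalization ((nonZeroDivisors (Polynomial κ)).map (C (σ := σ)))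
      (MvPolynomial σ (RatFunc κ)) := MvPolynomial.isLocalization _ _
  let _ : Algebra (MvPolynomial (Option σ) κ) (MvPolynomial σ (RatFunc κ)) := (lam σ κ).toAlgebra
  refine IsLocalization.of_ringEquiv_left
    (M₁ := (nonZeroDivisors (Polynomial κ)).map (C (σ := σ)))
    (optionEquivRight κ σ).toRingEquiv ?_ ?_
  · rw [tS]
    ext y
    constructor
    · rintro ⟨_, ⟨p, hp, rfl⟩, rfl⟩
      exact ⟨p, hp, (key σ κ p).symm⟩
    · rintro ⟨p, hp, rfl⟩
      exact ⟨_, ⟨p, hp, rfl⟩, key σ κ p⟩
  · intro x
    have h : lam σ κ = (algebraMap (MvPolynomial σ (Polynomial κ))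
        (MvPolynomial σ (RatFunc κ))).comp
          ((optionEquivRight κ σ).toRingEquiv : MvPolynomial (Option σ) κ →+* _) := by
      apply MvPolynomial.ringHom_ext
      · intro a
        show lam σ κ (C a) = algebraMap (MvPolynomial σ (Polynomial κ)) _
          (optionEquivRight κ σ (C a))
        rw [optionEquivRight_C, MvPolynomial.algebraMap_def, map_C]
        simp [lam]
      · intro o
        cases o with
        | none =>
          show lam σ κ (X none) = algebraMap (MvPolynomial σ (Polynomial κ)) _
            (optionEquivRight κ σ (X none))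
          rw [optionEquivRight_X_none, MvPolynomial.algebraMap_def, map_C]
          simp [lam]
        | some i =>
          show lam σ κ (X (some i)) = algebraMap (MvPolynomial σ (Polynomial κ)) _
            (optionEquivRight κ σ (X (some i)))
          rw [optionEquivRight_X_some, MvPolynomial.algebraMap_def, map_X]
          simp [lam]
    exact congrArg (fun g => g x) h

theorem lam_rn (σ κ : Type) [Field κ] (f : MvPolynomial σ κ) :
    lam σ κ (rn σ κ f) = ct σ κ f := by
  have : (lam σ κ).comp (rn σ κ) = ct σ κ := by
    apply MvPolynomial.ringHom_ext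
    · intro a
      simp [lam, rn, ct]
    · intro i
      simp [lam, rn, ct]
  exact congrArg (fun g => g f) this

theorem lam_X (σ κ : Type) [Field κ] :
    lam σ κ (X none) = C RatFunc.X := by
  simp [lam]

theorem lam_comp {σ κ : Type} [Field κ] (w : σ → ℕ) (d : ℕ) (f : MvPolynomial (Option σ) κ) :
    lam σ κ (weightedHomogeneousComponent (ow w) d f) =
      weightedHomogeneousComponent w d (lam σ κ f) := by
  refine comp_map (lam σ κ) (ow w) w (hom_of _ _ _ _ ?_ ?_) d f
  · intro a
    exact isWeightedHomogeneous_C _ _
  · intro o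
    cases o with
    | none => exact isWeightedHomogeneous_C _ _
    | some i => exact isWeightedHomogeneous_X _ _ _

theorem ct_comp {σ κ : Type} [Field κ] (w : σ → ℕ) (d : ℕ) (f : MvPolynomial σ κ) :
    ct σ κ (weightedHomogeneousComponent w d f) =
      weightedHomogeneousComponent w d (ct σ κ f) := by
  classical
  ext m
  rw [ct, coeff_map, coeff_weightedHomogeneousComponent, coeff_weightedHomogeneousComponent,
    coeff_map]
  split_ifs
  · rfl
  · rw [map_zero]

end

end Pool.Agent.Helper41.PP
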