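import Pool.Agent.Helper41.PP.Theta

namespace Pool.Agent.Helper41.PP

open MvPolynomial

private theorem pencil_le {σ κ : Type} [Field κ] (J : Ideal (MvPolynomial σ κ))
    (F G : MvPolynomial σ κ) : pencilI J F G ≤ (baseI J F G).map (ct σ κ) := by
  unfold pencilI baseI
  rw [Ideal.map_sup]
  refine sup_le_sup le_rfl ?_
  rw [Ideal.span_le, Set.singleton_subset_iff]
  have hF : ct σ κ F ∈ (Ideal.span {F, G}).map (ct σ κ) :=
    Ideal.mem_map_of_mem _ (Ideal.subset_span (by simp))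
  have hG : ct σ κ G ∈ (Ideal.span {F, G}).map (ct σ κ) :=
    Ideal.mem_map_of_mem _ (Ideal.subset_span (by simp))
  exact Ideal.add_mem _ hF (Ideal.mul_mem_left _ _ hG)

theorem main (k : Type) [Field k] (n : ℕ) (w : Fin (n + 1) → ℕ) (hw : ∀ i, 0 < w i)
    (J : Ideal (MvPolynomial (Fin (n + 1)) k)) (F G : MvPolynomial (Fin (n + 1)) k) (m : ℕ)
    (hF : IsWeightedHomogeneous w F m) (hG : IsWeightedHomogeneous w G m) (c : ℕ) :
    ∃ φ : CH w (baseI J F G) (c + 1) →ₗ[ℚ] CH w (pencilI J F G) (c + 1),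
      (∀ q : Sub w (baseI J F G) (c + 1), ∃ Q : Sub w (pencilI J F G) (c + 1),
        Q.ideal = q.ideal.map (MvPolynomial.map (algebraMap k (RatFunc k))) ∧
          φ (cls q) = cls Q) ∧
      (∃ ψ : CHmodH w J c →ₗ[ℚ] (CH w (pencilI J F G) (c + 1) ⧸ LinearMap.range φ),
        Function.Surjective ψ) ∧
      (J = ⊥ → 0 < c → Function.Surjective φ) := by
  classical
  obtain ⟨e, he⟩ := exists_ext (ct_good w) (pencil_le J F G) (c + 1)
  let φ : CH w (baseI J F G) (c + 1) →ₗ[ℚ] CH w (pencilI J F G) (c + 1) :=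
    Submodule.mapQ _ _ (Finsupp.lmapDomain ℚ ℚ e) (by
      intro r hr
      exact push_rel (ct_good w) (pencil_le J F G) e he r hr)
  have hφ : ∀ q, φ (cls q) = cls (e q) := by
    intro q
    simp only [φ, cls]
    rw [Submodule.mkQ_apply, Submodule.mapQ_apply, Submodule.mkQ_apply]
    simp [Finsupp.lmapDomain_apply, Finsupp.mapDomain_single]
  obtain ⟨ψ₀, hψ₀⟩ := theta w hw J F G m hF hG c
  have hker : (Rel w (pencilI J F G) (c + 1) ⊔ ConstS w J F G (c + 1)) ≤
      LinearMap.ker ((LinearMap.range φ).mkQ.comp (Rel w (pencilI J F G) (c + 1)).mkQ) := by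
    refine sup_le ?_ ?_
    · intro r hr
      rw [LinearMap.mem_ker, LinearMap.comp_apply]
      have : (Rel w (pencilI J F G) (c + 1)).mkQ r = 0 := by
        rw [Submodule.mkQ_apply, Submodule.Quotient.mk_eq_zero]
        exact hr
      rw [this, map_zero]
    · rw [ConstS, Submodule.span_le]
      rintro r ⟨Q, q, hQq, rfl⟩
      have hQ : Q = e q := sub_ext (by rw [he q, hQq])
      rw [SetLike.mem_coe, LinearMap.mem_ker, LinearMap.comp_apply, Submodule.mkQ_apply,
        Submodule.Quotient.mk_eq_zero]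
      refine ⟨cls q, ?_⟩
      rw [hφ q, hQ]
      rfl
  let χ : ((Sub w (pencilI J F G) (c + 1) →₀ ℚ) ⧸
      (Rel w (pencilI J F G) (c + 1) ⊔ ConstS w J F G (c + 1))) →ₗ[ℚ]
      (CH w (pencilI J F G) (c + 1) ⧸ LinearMap.range φ) := Submodule.liftQ _ _ hker
  have hχ : Function.Surjective χ := by
    intro y
    obtain ⟨y₁, rfl⟩ := Submodule.mkQ_surjective _ y
    obtain ⟨y₂, rfl⟩ := Submodule.mkQ_surjective _ y₁
    exact ⟨Submodule.Quotient.mk y₂, rfl⟩
  refine ⟨φ, fun q => ⟨e q, he q, hφ q⟩, ⟨χ.comp ψ₀, hχ.comp hψ₀⟩, ?_⟩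
  intro hJ hc y
  have hz : ∀ z : CHmodH w J c, z = 0 := by
    intro z
    obtain ⟨z, rfl⟩ := Submodule.mkQ_surjective _ z
    rw [Submodule.mkQ_apply, Submodule.Quotient.mk_eq_zero]
    induction z using Finsupp.induction_linear with
    | zero => exact Submodule.zero_mem _
    | add f g hf hg => exact Submodule.add_mem _ hf hg
    | single a b =>
      have h1 : Finsupp.single a (1 : ℚ) ∈ ConeRel w J c := by
        subst hJ
        exact vanish (Fin (n + 1)) k w c hc a
      have h2 := Submodule.smul_mem _ b h1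
      simpa using h2
  obtain ⟨z, hzy⟩ := (hχ.comp hψ₀) ((LinearMap.range φ).mkQ y)
  have : (LinearMap.range φ).mkQ y = 0 := by
    rw [← hzy, hz z]
    simp
  rw [Submodule.mkQ_apply, Submodule.Quotient.mk_eq_zero] at this
  exact this

end Pool.Agent.Helper41.PP
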