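import Pool.Agent.Helper41.PP.Defs

/-!
PROOF of `mult_surj`: elements outside `Q` are mapped by `ρ` outside the maximal ideal, so to
units; hence `ρ` extends to `ρ' : Localization.AtPrime Q → Localization.AtPrime q`
(`IsLocalization.lift`). `ρ'` is surjective: `a / s = ρ' (ι a / ι s)`, where `ι s ∉ Q` because
`ρ (ι s)` is a unit. Let `I = (P, ι f)` extended to `Localization.AtPrime Q` and `I' = (p, f)`
extended to `Localization.AtPrime q`. Then `I = I'.comap ρ'`: `ρ' (P) ⊆ p Aq` by `hP`, so `⊆`; and if
`ρ' (x / s) ∈ I'` then `ρ' (x / s) = u + f v`, `u ∈ p Aq`, and `v = ρ' (v')`,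
`y = x / s - ι f * v'` has `ρ' y ∈ p Aq`; writing `y = z / s'`, `ρ z ∈ p Aq`, so `z ∈ P`.
So `ρ'` induces an isomorphism of rings between the quotients, surjective from
`Localization.AtPrime Q`; the length over `Localization.AtPrime Q` equals the length over
`Localization.AtPrime q` (`Module.length_eq_of_surjective`, `LinearEquiv.length_eq`).
-/

namespace Pool.Agent.Helper41.PP

private theorem length_comap {R S : Type} [CommRing R] [CommRing S] (φ : R →+* S)
    (hφ : Function.Surjective φ) (I : Ideal R) (I' : Ideal S) (h : I = I'.comap φ) :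
    Module.length R (R ⧸ I) = Module.length S (S ⧸ I') := by
  let _ : Algebra R S := φ.toAlgebra
  have h1 : Module.length R (S ⧸ I') = Module.length S (S ⧸ I') :=
    Module.length_eq_of_surjective (by exact hφ)
  rw [← h1]
  have hs : Function.Surjective (Algebra.linearMap R (S ⧸ I')) := by
    intro y
    obtain ⟨s, rfl⟩ := Ideal.Quotient.mk_surjective y
    obtain ⟨r, rfl⟩ := hφ s
    exact ⟨r, rfl⟩
  have hk : LinearMap.ker (Algebra.linearMap R (S ⧸ I')) = I := by
    ext r
    rw [LinearMap.mem_ker, h, Ideal.mem_comap]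
    exact Ideal.Quotient.eq_zero_iff_mem
  subst hk
  exact LinearEquiv.length_eq (LinearMap.quotKerEquivOfSurjective _ hs)

theorem mult_surj {A B : Type} [CommRing A] [CommRing B] (ι : A →+* B) (p q : Ideal A)
    [q.IsPrime] (P Q : Ideal B) [Q.IsPrime] (ρ : B →+* Localization.AtPrime q)
    (hρ : ∀ a, ρ (ι a) = algebraMap A (Localization.AtPrime q) a)
    (hQ : ∀ x, x ∈ Q ↔ ρ x ∈ IsLocalRing.maximalIdeal (Localization.AtPrime q))
    (hP : ∀ x, x ∈ P ↔ ρ x ∈ p.map (algebraMap A (Localization.AtPrime q))) (f : A) :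
    mult P Q (ι f) = mult p q f := by
  have hu : ∀ y : Q.primeCompl, IsUnit (ρ y) := by
    intro y
    by_contra hy
    exact y.2 ((hQ y).2 ((IsLocalRing.mem_maximalIdeal _).2 hy))
  have hnu : ∀ x, IsUnit (ρ x) → x ∉ Q := by
    intro x hx hxQ
    exact (IsLocalRing.mem_maximalIdeal _).1 ((hQ x).1 hxQ) hx
  set ρ' : Localization.AtPrime Q →+* Localization.AtPrime q :=
    IsLocalization.lift (M := Q.primeCompl) hu with hρ'
  have hl : ∀ b : B, ρ' (algebraMap B (Localization.AtPrime Q) b) = ρ b := fun b =>
    IsLocalization.lift_eq hu b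
  have hsurj : Function.Surjective ρ' := by
    intro y
    obtain ⟨a, s, rfl⟩ := IsLocalization.exists_mk'_eq q.primeCompl y
    have hs : ι (s : A) ∉ Q := by
      apply hnu
      rw [hρ]
      exact IsLocalization.map_units (Localization.AtPrime q) s
    refine ⟨IsLocalization.mk' (Localization.AtPrime Q) (ι a)
      (⟨ι (s : A), hs⟩ : Q.primeCompl), ?_⟩
    rw [hρ', IsLocalization.lift_mk'_spec, hρ]
    show _ = ρ (ι (s : A)) * _
    rw [hρ, mul_comm, IsLocalization.mk'_spec]
  have hcomap : (P ⊔ Ideal.span {ι f}).map (algebraMap B (Localization.AtPrime Q)) =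
      ((p ⊔ Ideal.span {f}).map (algebraMap A (Localization.AtPrime q))).comap ρ' := by
    apply le_antisymm
    · rw [Ideal.map_le_iff_le_comap, sup_le_iff]
      constructor
      · intro x hx
        rw [Ideal.mem_comap, Ideal.mem_comap, hl]
        exact Ideal.map_mono le_sup_left ((hP x).1 hx)
      · rw [Ideal.span_le, Set.singleton_subset_iff, SetLike.mem_coe, Ideal.mem_comap,
          Ideal.mem_comap, hl, hρ]
        exact Ideal.mem_map_of_mem _
          ((le_sup_right : Ideal.span {f} ≤ p ⊔ Ideal.span {f}) (Ideal.mem_span_singleton_self f))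
    · intro y hy
      rw [Ideal.mem_comap, Ideal.map_sup, Ideal.map_span, Set.image_singleton,
        Submodule.mem_sup] at hy
      obtain ⟨u, hu', w, hw, huw⟩ := hy
      obtain ⟨v, rfl⟩ := Ideal.mem_span_singleton'.1 hw
      obtain ⟨v', rfl⟩ := hsurj v
      have hz : ρ' (y - v' * algebraMap B (Localization.AtPrime Q) (ι f)) = u := by
        rw [map_sub, map_mul, hl, hρ, ← huw]; ring
      obtain ⟨z, s, hzs⟩ := IsLocalization.exists_mk'_eq Q.primeCompl
        (y - v' * algebraMap B (Localization.AtPrime Q) (ι f))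
      have hzP : z ∈ P := by
        rw [hP, ← hl]
        have := IsLocalization.mk'_spec (Localization.AtPrime Q) z s
        rw [← this, hzs, map_mul, hz]
        exact Ideal.mul_mem_right _ _ hu'
      have hy2 : y = IsLocalization.mk' (Localization.AtPrime Q) z s +
          v' * algebraMap B (Localization.AtPrime Q) (ι f) := by
        rw [hzs]; ring
      rw [hy2, Ideal.map_sup]
      apply Submodule.add_mem_sup
      · rw [IsLocalization.mk'_eq_mul_mk'_one]
        exact Ideal.mul_mem_right _ _ (Ideal.mem_map_of_mem _ hzP)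
      · exact Ideal.mul_mem_left _ _
          (Ideal.mem_map_of_mem _ (Ideal.mem_span_singleton_self _))
  unfold mult
  rw [length_comap ρ' hsurj _ _ hcomap]

end Pool.Agent.Helper41.PP
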