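import Pool.Agent.Helper41.PP.Trans

/-!
PROOF of `Q0_mult`: see the comment in Trans.lean: `mult_surj` with `ι = rn σ κ`, `ρ` the composite of
`psi F G` and `Localization.Away G → Localization.AtPrime q` (`IsLocalization.Away.lift`, `G ∉ q` is
mapped to a unit). For `x` in `Localization.Away G`, `x = a / G ^ n`, the image of `x` is in the
extension of a prime `p ≤ q` to `Localization.AtPrime q` iff `a ∈ p` iff `x` is in the extension of
`p` to `Localization.Away G` (both contract to `p`:
`IsLocalization.comap_map_of_isPrime_disjoint` / `under_map_of_isPrime_disjoint`); use it for `p`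
and for `q` (`Localization.AtPrime.map_eq_maximalIdeal`).
-/

namespace Pool.Agent.Helper41.PP

open MvPolynomial

private theorem away_mem {A : Type} [CommRing A] (G : A) (p q : Ideal A) [p.IsPrime] [q.IsPrime]
    (hpq : p ≤ q) (hG : G ∉ q) (φ : Localization.Away G →+* Localization.AtPrime q)
    (hφ : ∀ a, φ (algebraMap A (Localization.Away G) a) = algebraMap A (Localization.AtPrime q) a)
    (x : Localization.Away G) :
    x ∈ p.map (algebraMap A (Localization.Away G)) ↔
      φ x ∈ p.map (algebraMap A (Localization.AtPrime q)) := by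
  have hGp : G ∉ p := fun h => hG (hpq h)
  have h1 : (p.map (algebraMap A (Localization.Away G))).comap
      (algebraMap A (Localization.Away G)) = p := by
    apply IsLocalization.under_map_of_isPrime_disjoint (Submonoid.powers G)
    · infer_instance
    · rw [Set.disjoint_left]
      rintro y ⟨n, rfl⟩ hy
      exact hGp (Ideal.IsPrime.mem_of_pow_mem inferInstance n hy)
  have h2 : (p.map (algebraMap A (Localization.AtPrime q))).comap
      (algebraMap A (Localization.AtPrime q)) = p := by
    apply IsLocalization.under_map_of_isPrime_disjoint q.primeCompl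
    · infer_instance
    · rw [Set.disjoint_left]
      intro y hy hy'
      exact hy (hpq hy')
  obtain ⟨⟨a, ⟨s, hs⟩⟩, ha⟩ := IsLocalization.surj (Submonoid.powers G) x
  have hu1 : IsUnit (algebraMap A (Localization.Away G) s) :=
    IsLocalization.map_units (Localization.Away G) (⟨s, hs⟩ : Submonoid.powers G)
  have hsq : s ∉ q := by
    obtain ⟨n, rfl⟩ := hs
    exact fun h => hG (Ideal.IsPrime.mem_of_pow_mem inferInstance n h)
  have hu2 : IsUnit (algebraMap A (Localization.AtPrime q) s) :=
    IsLocalization.map_units (Localization.AtPrime q) (⟨s, hsq⟩ : q.primeCompl)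
  have e1 : x * algebraMap A (Localization.Away G) s = algebraMap A (Localization.Away G) a := ha
  have e2 : φ x * algebraMap A (Localization.AtPrime q) s =
      algebraMap A (Localization.AtPrime q) a := by
    rw [← hφ, ← hφ, ← map_mul, e1]
  rw [← Ideal.mul_unit_mem_iff_mem _ hu1, ← Ideal.mul_unit_mem_iff_mem _ hu2, e1, e2]
  have k1 : a ∈ (p.map (algebraMap A (Localization.Away G))).comap
      (algebraMap A (Localization.Away G)) ↔ a ∈ p := by rw [h1]
  have k2 : a ∈ (p.map (algebraMap A (Localization.AtPrime q))).comap
      (algebraMap A (Localization.AtPrime q)) ↔ a ∈ p := by rw [h2]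
  rw [Ideal.mem_comap] at k1 k2
  rw [k1, k2]

theorem Q0_mult {σ κ : Type} [Field κ] (F G : MvPolynomial σ κ) (p q : Ideal (MvPolynomial σ κ))
    [p.IsPrime] [q.IsPrime] (hpq : p ≤ q) (hG : G ∉ q) [(Q0 F G q).IsPrime]
    (f : MvPolynomial σ κ) :
    mult (Q0 F G p) (Q0 F G q) (rn σ κ f) = mult p q f := by
  have hu : IsUnit (algebraMap (MvPolynomial σ κ) (Localization.AtPrime q) G) :=
    IsLocalization.map_units (Localization.AtPrime q) (⟨G, hG⟩ : q.primeCompl)
  set φ : Localization.Away G →+* Localization.AtPrime q :=
    IsLocalization.Away.lift G hu with hφdef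
  have hφ : ∀ a, φ (algebraMap (MvPolynomial σ κ) (Localization.Away G) a) =
      algebraMap (MvPolynomial σ κ) (Localization.AtPrime q) a := by
    intro a
    exact IsLocalization.Away.lift_eq G hu a
  apply mult_surj (rn σ κ) p q (Q0 F G p) (Q0 F G q) (φ.comp (psi F G))
  · intro a
    rw [RingHom.comp_apply, psi_rn, hφ]
  · intro x
    rw [← Localization.AtPrime.map_eq_maximalIdeal, RingHom.comp_apply,
      ← away_mem G q q le_rfl hG φ hφ]
    rfl
  · intro x
    rw [RingHom.comp_apply, ← away_mem G p q hpq hG φ hφ]
    rfl

end Pool.Agent.Helper41.PP
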