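import Pool.Agent.Helper41.PP.Const
import Pool.Agent.Helper41.PP.TransMult

/-!
Notation of the comments: `X = V(pencilI J F G)`, `W` = cycles on `X` modulo `Rel ⊔ ConstS`.

`up`: for `q ∈ Sub w J c` with `G ∉ q` and `Q0 F G q` disjoint from `tS`, the member
`(Q0 F G q).map lam` of `Sub w (pencilI J F G) (c + 1)` (`lam_prime`, `Q0_homog`, `lam_comp`,
`lam_height` with `lam_comap_map`, `Q0_height`; it contains `pencilI`: `Q0_gen`, `lam_rn`, `lam_X`,
`J ≤ q`).

`down`: for `Q ∈ Sub w (pencilI J F G) (c + 1)` with `ct G ∉ Q`, `q = Q.ideal.comap ct` is in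
`Sub w J c`, `G ∉ q`, `Q.ideal.comap lam = Q0 F G q` (`Q0_unique`), disjoint from `tS`
(`lam_disjoint`), so `Q = up q`.

`theta`: let `Θ : (Sub w J c →₀ ℚ) → W` be `q ↦ [up q]` or 0 if `q` is not as in `up`.
SURJECTIVE: `Q` with `ct G ∈ Q` is 0 in `W` (`const_span`), the others are `up q`.
`Θ` KILLS `ConeRel`: let `r` be the divisor on `V(p)`, `p ∈ Sub w J b`, `b + 1 = c`, of `f ∉ p`,
homogeneous of degree `D`. If `G ∈ p` or `Q0 F G p` meets `tS`, the same holds for all `q ≥ p`
(`Q0_mono`), so `Θ r = 0`. Otherwise let `P = up p ∈ Sub w (pencilI J F G) (b + 1)`. `m > 0`: for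
`m = 0`, `F`, `G` are constants, `G ≠ 0`, and `ct F + C t * ct G` is a nonzero constant in `P`.
`u` = divisor of `(ct f) ^ m` on `V(P)`, `v` = divisor of `(ct G) ^ D` (`exists_div`), same degree
`m * D`; `ct f`, `ct G ∉ P` (contract to `MvPolynomial σ κ`: `P.ideal.comap ct = p`). `u - v ∈ Rel`. `v` is supported on
subvarieties containing `ct G`, so it is 0 in `W`. For `Q ≥ P` with `ct G ∉ Q`, `Q = up q`, `p ≤ q`,
`u Q = mult P Q ((ct f) ^ m) = m * mult P Q (ct f)` (`mult_pow`) `= m * mult (Q0 p) (Q0 q) (rn f)`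
(`lam_mult`, `lam_comap_map`, `lam_rn`) `= m * mult p q f` (`Q0_mult`) `= m * r q`; and `P ≤ up q` iff
`p ≤ q`. So `u` and `m • Θ r` agree in `W`, `m • Θ r = 0`, `Θ r = 0`.
-/

namespace Pool.Agent.Helper41.PP

open MvPolynomial

variable {σ κ : Type} [Field κ]

private theorem homId_map {σ' κ' : Type} [Field κ'] {w : σ → ℕ} {w' : σ' → ℕ}
    (ι : MvPolynomial σ κ →+* MvPolynomial σ' κ')
    (hι : ∀ (d : ℕ) (f : MvPolynomial σ κ),
      ι (weightedHomogeneousComponent w d f) = weightedHomogeneousComponent w' d (ι f))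
    (I : Ideal (MvPolynomial σ κ)) (hI : HomId w I) : HomId w' (I.map ι) := by
  have h1 : I.map ι = Ideal.span {g | ∃ f ∈ I, ∃ d : ℕ, g = ι (weightedHomogeneousComponent w d f)} := by
    apply le_antisymm
    · rw [Ideal.map_le_iff_le_comap]
      intro f hf
      rw [Ideal.mem_comap]
      have h2 := sum_weightedHomogeneousComponent w f
      rw [finsum_eq_sum _ (weightedHomogeneousComponent_finsupp f)] at h2
      rw [← h2, map_sum]
      exact Ideal.sum_mem _ (fun d _ => Ideal.subset_span ⟨f, hf, d, rfl⟩)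
    · rw [Ideal.span_le]
      rintro g ⟨f, hf, d, rfl⟩
      exact Ideal.mem_map_of_mem _ (hI f hf d)
  rw [h1]
  apply homId_span
  rintro g ⟨f, hf, d, rfl⟩
  exact ⟨d, by rw [hι]; exact weightedHomogeneousComponent_isWeightedHomogeneous _ _⟩

private theorem lam_gen (F G : MvPolynomial σ κ) :
    lam σ κ (rn σ κ F + X none * rn σ κ G) = ct σ κ F + C RatFunc.X * ct σ κ G := by
  rw [map_add, map_mul, lam_rn, lam_rn, lam_X]

private theorem comap_ct (Q : Ideal (MvPolynomial σ (RatFunc κ))) :
    (Q.comap (lam σ κ)).comap (rn σ κ) = Q.comap (ct σ κ) := by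
  ext a
  simp only [Ideal.mem_comap, lam_rn]

private theorem mem_of_supp {α : Type} (S : Submodule ℚ (α →₀ ℚ)) (D : α →₀ ℚ)
    (h : ∀ Q, D Q ≠ 0 → Finsupp.single Q 1 ∈ S) : D ∈ S := by
  classical
  rw [← Finsupp.sum_single D]
  refine Submodule.sum_mem _ (fun Q hQ => ?_)
  have h1 := Submodule.smul_mem S (D Q) (h Q (Finsupp.mem_support_iff.mp hQ))
  simpa using h1

theorem exists_up [Finite σ] (w : σ → ℕ) (J : Ideal (MvPolynomial σ κ))
    (F G : MvPolynomial σ κ) (m : ℕ) (hF : IsWeightedHomogeneous w F m)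
    (hG : IsWeightedHomogeneous w G m) (c : ℕ) (q : Sub w J c) (hGq : G ∉ q.ideal)
    (hd : Disjoint (tS σ κ : Set (MvPolynomial (Option σ) κ)) (Q0 F G q.ideal)) :
    ∃ Q : Sub w (pencilI J F G) (c + 1), Q.ideal = (Q0 F G q.ideal).map (lam σ κ) := by
  haveI := Q0_prime F G q.ideal hGq
  haveI hp := lam_prime (Q0 F G q.ideal) hd
  have hcm := lam_comap_map (Q0 F G q.ideal) hd
  have hh : HomId (ow w) (Q0 F G q.ideal) := by
    refine Q0_homog F G (ow w) rfl m ?_ ?_ q.ideal ?_ hGq
    · exact hF
    · exact hG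
    · exact q.homog
  refine ⟨⟨(Q0 F G q.ideal).map (lam σ κ), hp, ?_, ?_, ?_⟩, rfl⟩
  · exact homId_map (lam σ κ) (fun d f => lam_comp w d f) _ hh
  · unfold pencilI
    refine sup_le ?_ ?_
    · rw [Ideal.map_le_iff_le_comap]
      intro a ha
      rw [Ideal.mem_comap]
      have h1 : rn σ κ a ∈ Q0 F G q.ideal := by
        have h2 : a ∈ (Q0 F G q.ideal).comap (rn σ κ) := by
          rw [Q0_comap F G q.ideal hGq]
          exact q.le ha
        exact h2
      have h3 := Ideal.mem_map_of_mem (lam σ κ) h1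
      rw [lam_rn] at h3
      exact h3
    · rw [Ideal.span_le, Set.singleton_subset_iff]
      have h3 := Ideal.mem_map_of_mem (lam σ κ) (Q0_gen F G q.ideal)
      rw [lam_gen] at h3
      exact h3
  · rw [lam_height, hcm, Q0_height F G q.ideal hGq, q.height]
    norm_cast

theorem exists_down [Finite σ] (w : σ → ℕ) (J : Ideal (MvPolynomial σ κ))
    (F G : MvPolynomial σ κ) (c : ℕ) (Q : Sub w (pencilI J F G) (c + 1))
    (hGQ : ct σ κ G ∉ Q.ideal) :
    ∃ q : Sub w J c, q.ideal = Q.ideal.comap (ct σ κ) ∧ G ∉ q.ideal ∧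
      Q.ideal.comap (lam σ κ) = Q0 F G q.ideal ∧
      Disjoint (tS σ κ : Set (MvPolynomial (Option σ) κ)) (Q0 F G q.ideal) ∧
      Q.ideal = (Q0 F G q.ideal).map (lam σ κ) := by
  have hpen : ct σ κ F + C RatFunc.X * ct σ κ G ∈ Q.ideal :=
    Q.le (Ideal.mem_sup_right (Ideal.subset_span rfl))
  have h1 : rn σ κ F + X none * rn σ κ G ∈ Q.ideal.comap (lam σ κ) := by
    rw [Ideal.mem_comap, lam_gen]
    exact hpen
  have h2 : rn σ κ G ∉ Q.ideal.comap (lam σ κ) := by
    rw [Ideal.mem_comap, lam_rn]
    exact hGQ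
  have h3 := Q0_unique F G (Q.ideal.comap (lam σ κ)) h1 h2
  rw [comap_ct] at h3
  have hG' : G ∉ Q.ideal.comap (ct σ κ) := hGQ
  have hht : (Q.ideal.comap (ct σ κ)).height = (c : ℕ∞) := by
    have h4 := lam_height Q.ideal
    rw [h3, Q0_height F G _ hG', Q.height] at h4
    have h5 : ((c : ℕ∞)) + 1 = (Q.ideal.comap (ct σ κ)).height + 1 := by
      rw [← h4]; norm_cast
    exact ENat.add_left_injective_of_ne_top (by simp : (1 : ℕ∞) ≠ ⊤) h5.symm
  refine ⟨⟨Q.ideal.comap (ct σ κ), inferInstance, ?_, ?_, hht⟩, rfl, hG', h3, ?_, ?_⟩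
  · intro f hf d
    rw [Ideal.mem_comap, ct_comp]
    exact Q.homog _ hf d
  · intro a ha
    exact Q.le (Ideal.mem_sup_left (Ideal.mem_map_of_mem _ ha))
  · show Disjoint _ (↑(Q0 F G (Q.ideal.comap (ct σ κ))) : Set (MvPolynomial (Option σ) κ))
    rw [← h3]
    exact lam_disjoint Q.ideal
  · show Q.ideal = (Q0 F G (Q.ideal.comap (ct σ κ))).map (lam σ κ)
    rw [← h3]
    exact (lam_map_comap Q.ideal).symm

theorem theta [Finite σ] (w : σ → ℕ) (hw : ∀ i, 0 < w i) (J : Ideal (MvPolynomial σ κ))
    (F G : MvPolynomial σ κ) (m : ℕ) (hF : IsWeightedHomogeneous w F m)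
    (hG : IsWeightedHomogeneous w G m) (c : ℕ) :
    ∃ ψ : CHmodH w J c →ₗ[ℚ] ((Sub w (pencilI J F G) (c + 1) →₀ ℚ) ⧸
      (Rel w (pencilI J F G) (c + 1) ⊔ ConstS w J F G (c + 1))), Function.Surjective ψ := by
  classical
  set S := Rel w (pencilI J F G) (c + 1) ⊔ ConstS w J F G (c + 1) with hS
  let Good : Sub w J c → Prop := fun q => G ∉ q.ideal ∧
    Disjoint (tS σ κ : Set (MvPolynomial (Option σ) κ)) (Q0 F G q.ideal)
  have hup : ∀ q : {q : Sub w J c // Good q}, ∃ Q : Sub w (pencilI J F G) (c + 1),
      Q.ideal = (Q0 F G q.1.ideal).map (lam σ κ) := fun q =>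
    exists_up w J F G m hF hG c q.1 q.2.1 q.2.2
  choose up hup using hup
  let θ₀ : Sub w J c → (Sub w (pencilI J F G) (c + 1) →₀ ℚ) := fun q =>
    if h : Good q then Finsupp.single (up ⟨q, h⟩) 1 else 0
  let Θ₀ : (Sub w J c →₀ ℚ) →ₗ[ℚ] (Sub w (pencilI J F G) (c + 1) →₀ ℚ) :=
    Finsupp.linearCombination ℚ θ₀
  have hGmem : ∀ Q : Sub w (pencilI J F G) (c + 1), ct σ κ G ∈ Q.ideal →
      Finsupp.single Q 1 ∈ S := fun Q hQ => const_span w hw J F G (c + 1) Q hQ
  -- coefficients
  have hcoef : ∀ (r : Sub w J c →₀ ℚ) (Q : Sub w (pencilI J F G) (c + 1)) (q : Sub w J c)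
      (hq : Good q), up ⟨q, hq⟩ = Q → Θ₀ r Q = r q := by
    intro r Q q hq hqQ
    have hinj : ∀ (q' : Sub w J c) (hq' : Good q'), up ⟨q', hq'⟩ = Q → q' = q := by
      intro q' hq' h'
      have e1 : (up ⟨q', hq'⟩).ideal = (up ⟨q, hq⟩).ideal := by rw [h', hqQ]
      rw [hup, hup] at e1
      haveI := Q0_prime F G q'.ideal hq'.1
      haveI := Q0_prime F G q.ideal hq.1
      have e2 := congrArg (fun I => (Ideal.comap (lam σ κ) I).comap (rn σ κ)) e1
      simp only at e2
      rw [lam_comap_map _ hq'.2, lam_comap_map _ hq.2, Q0_comap F G _ hq'.1,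
        Q0_comap F G _ hq.1] at e2
      exact sub_ext e2
    have : Θ₀ r Q = ∑ q' ∈ r.support, r q' * (θ₀ q') Q := by
      simp only [Θ₀, Finsupp.linearCombination_apply, Finsupp.sum, Finsupp.finsetSum_apply,
        Finsupp.smul_apply, smul_eq_mul]
    rw [this]
    rw [Finset.sum_eq_single q]
    · simp only [θ₀, dif_pos hq, hqQ, Finsupp.single_eq_same, mul_one]
    · intro q' _ hne
      simp only [θ₀]
      split_ifs with hg
      · rw [Finsupp.single_apply, if_neg, mul_zero]
        intro h'
        exact hne (hinj q' hg h')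
      · simp
    · intro hn
      rw [Finsupp.notMem_support_iff] at hn
      rw [hn, zero_mul]
  have hker : ConeRel w J c ≤ LinearMap.ker (S.mkQ.comp Θ₀) := by
    rw [ConeRel, Submodule.span_le]
    rintro r ⟨b, P, d, f, hbc, hf, hfP, hr⟩
    rw [SetLike.mem_coe, LinearMap.mem_ker, LinearMap.comp_apply]
    by_cases hPg : G ∉ P.ideal ∧
        Disjoint (tS σ κ : Set (MvPolynomial (Option σ) κ)) (Q0 F G P.ideal)
    · -- the main case
      obtain ⟨P', hP'⟩ := exists_up w J F G m hF hG b P hPg.1 hPg.2
      haveI := Q0_prime F G P.ideal hPg.1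
      have hP'c : P'.ideal.comap (lam σ κ) = Q0 F G P.ideal := by
        rw [hP']; exact lam_comap_map _ hPg.2
      have hP'ct : P'.ideal.comap (ct σ κ) = P.ideal := by
        rw [← comap_ct, hP'c, Q0_comap F G _ hPg.1]
      have hmem : ∀ a : MvPolynomial σ κ, ct σ κ a ∈ P'.ideal ↔ a ∈ P.ideal := by
        intro a
        rw [← hP'ct, Ideal.mem_comap]
      have hm : m ≠ 0 := by
        rintro rfl
        have hconst : ∀ H : MvPolynomial σ κ, IsWeightedHomogeneous w H 0 →
            ∃ a : κ, H = C a := by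
          intro H hH
          refine ⟨coeff 0 H, ?_⟩
          ext e
          rw [coeff_C]
          split_ifs with he
          · rw [← he]
          · by_contra hne
            have h1 := hH hne
            apply he
            symm
            ext i
            haveI := Finsupp.nonTorsionWeight_of ℕ (w := w) (fun i => (hw i).ne')
            have h2 := (Finsupp.weight_eq_zero_iff_eq_zero (w := w) (f := e)).mp h1
            simp [h2]
        obtain ⟨a, ha⟩ := hconst G hG
        obtain ⟨a', ha'⟩ := hconst F hF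
        have hane : a ≠ 0 := by
          rintro rfl
          apply hPg.1
          rw [ha, map_zero]
          exact Ideal.zero_mem _
        have hpen : ct σ κ F + C RatFunc.X * ct σ κ G ∈ P'.ideal :=
          P'.le (Ideal.mem_sup_right (Ideal.subset_span rfl))
        have hunit : IsUnit (ct σ κ F + C RatFunc.X * ct σ κ G) := by
          rw [ha, ha']
          simp only [ct, MvPolynomial.map_C]
          rw [← map_mul, ← map_add]
          apply IsUnit.map
          rw [isUnit_iff_ne_zero]
          intro h0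
          have h1 : (algebraMap (Polynomial κ) (RatFunc κ))
              (Polynomial.C a' + Polynomial.X * Polynomial.C a) = 0 := by
            rw [map_add, map_mul, RatFunc.algebraMap_X]
            exact h0
          rw [map_eq_zero_iff _ (RatFunc.algebraMap_injective κ)] at h1
          have h2 := congrArg (fun p => Polynomial.coeff p 1) h1
          simp at h2
          exact hane h2
        exact P'.prime.ne_top (Ideal.eq_top_of_isUnit_mem _ hpen hunit)
      have hctf : ct σ κ f ∉ P'.ideal := fun h => hfP ((hmem f).mp h)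
      have hctG : ct σ κ G ∉ P'.ideal := fun h => hPg.1 ((hmem G).mp h)
      have hhom : ∀ (H : MvPolynomial σ κ) (D : ℕ), IsWeightedHomogeneous w H D →
          IsWeightedHomogeneous w (ct σ κ H) D := by
        intro H D hH
        have h1 := ct_comp w D H
        rw [hH.weightedHomogeneousComponent_same] at h1
        rw [h1]
        exact weightedHomogeneousComponent_isWeightedHomogeneous _ _
      have hfm : (ct σ κ f) ^ m ∉ P'.ideal := fun h => hctf (P'.prime.mem_of_pow_mem _ h)
      have hGd : (ct σ κ G) ^ d ∉ P'.ideal := fun h => hctG (P'.prime.mem_of_pow_mem _ h)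
      obtain ⟨u, hu⟩ := exists_div (c := c + 1) (by omega) P' _ hfm
      obtain ⟨v, hv⟩ := exists_div (c := c + 1) (by omega) P' _ hGd
      have huv : u - v ∈ S := by
        apply Submodule.mem_sup_left
        apply Submodule.subset_span
        refine ⟨b + 1, P', m * d, _, _, u, v, by omega, ?_, ?_, hfm, hGd, hu, hv, fun Q => by simp⟩
        · have := (hhom f d hf).pow m
          simpa using this
        · have := (hhom G m hG).pow d
          rw [mul_comm]
          simpa using this
      have hvS : v ∈ S := by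
        apply mem_of_supp
        intro Q hQ
        apply hGmem
        by_contra hn
        apply hQ
        by_cases hle : P'.ideal ≤ Q.ideal
        · rw [(hv Q).1 hle, mult_eq_zero]
          · simp
          · exact fun h => hn (Q.prime.mem_of_pow_mem _ h)
        · exact (hv Q).2 hle
      have huS : u ∈ S := by
        have := Submodule.add_mem _ huv hvS
        simpa using this
      have hdiff : u - (m : ℚ) • Θ₀ r ∈ S := by
        apply mem_of_supp
        intro Q hQ
        apply hGmem
        by_contra hn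
        apply hQ
        obtain ⟨q, hqi, hGq, hqc, hqd, hqQ⟩ := exists_down w J F G c Q hn
        have hgood : Good q := ⟨hGq, hqd⟩
        have hupq : up ⟨q, hgood⟩ = Q := sub_ext (by rw [hup, ← hqQ])
        rw [Finsupp.sub_apply, Finsupp.smul_apply, hcoef r Q q hgood hupq, smul_eq_mul]
        haveI := Q0_prime F G q.ideal hGq
        by_cases hle : P.ideal ≤ q.ideal
        · have hle' : P'.ideal ≤ Q.ideal := by
            rw [hP', hqQ]
            exact Ideal.map_mono (Q0_mono F G _ _ hle)
          have hht : Q.ideal.height ≤ P'.ideal.height + 1 := by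
            rw [Q.height, P'.height, ← hbc]
            norm_cast
          rw [(hu Q).1 hle', (hr q).1 hle, mult_pow _ _ hle' hht _ hctf m, ← lam_rn,
            lam_mult]
          have e1 : mult (P'.ideal.comap (lam σ κ)) (Q.ideal.comap (lam σ κ)) (rn σ κ f) =
              mult (Q0 F G P.ideal) (Q0 F G q.ideal) (rn σ κ f) := by
            congr 1
          rw [e1, Q0_mult F G P.ideal q.ideal hle hGq f]
          push_cast
          ring
        · have hle' : ¬ P'.ideal ≤ Q.ideal := by
            intro h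
            apply hle
            rw [← hP'ct, hqi]
            exact Ideal.comap_mono h
          rw [(hu Q).2 hle', (hr q).2 hle]
          simp
      have hmS : (m : ℚ) • Θ₀ r ∈ S := by
        have := Submodule.sub_mem _ huS hdiff
        simpa using this
      have hrS : Θ₀ r ∈ S := by
        have := Submodule.smul_mem S ((m : ℚ)⁻¹) hmS
        rwa [smul_smul, inv_mul_cancel₀ (Nat.cast_ne_zero.mpr hm), one_smul] at this
      rw [Submodule.mkQ_apply, Submodule.Quotient.mk_eq_zero]
      exact hrS
    · have : Θ₀ r = 0 := by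
        simp only [Θ₀, Finsupp.linearCombination_apply, Finsupp.sum]
        apply Finset.sum_eq_zero
        intro q hq
        have hrq : r q ≠ 0 := Finsupp.mem_support_iff.mp hq
        have hle : P.ideal ≤ q.ideal := by
          by_contra h
          exact hrq ((hr q).2 h)
        have hnot : ¬ Good q := by
          rintro ⟨h1, h2⟩
          apply hPg
          refine ⟨fun h => h1 (hle h), ?_⟩
          exact h2.mono_right (Q0_mono F G _ _ hle)
        simp only [θ₀, dif_neg hnot, smul_zero]
      rw [this, map_zero]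
  refine ⟨Submodule.liftQ _ _ hker, ?_⟩
  intro y
  obtain ⟨y, rfl⟩ := Submodule.mkQ_surjective _ y
  have hrange : ∀ y : Sub w (pencilI J F G) (c + 1) →₀ ℚ,
      S.mkQ y ∈ LinearMap.range (S.mkQ.comp Θ₀) := by
    intro y
    induction y using Finsupp.induction_linear with
    | zero => rw [map_zero]; exact Submodule.zero_mem _
    | add f g hf hg => rw [map_add]; exact Submodule.add_mem _ hf hg
    | single Q a =>
      have h1 : S.mkQ (Finsupp.single Q 1) ∈ LinearMap.range (S.mkQ.comp Θ₀) := by
        by_cases hQ : ct σ κ G ∈ Q.ideal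
        · have : S.mkQ (Finsupp.single Q 1) = 0 := by
            rw [Submodule.mkQ_apply, Submodule.Quotient.mk_eq_zero]
            exact hGmem Q hQ
          rw [this]
          exact Submodule.zero_mem _
        · obtain ⟨q, hqi, hGq, hqc, hqd, hqQ⟩ := exists_down w J F G c Q hQ
          have hgood : Good q := ⟨hGq, hqd⟩
          have hupq : up ⟨q, hgood⟩ = Q := sub_ext (by rw [hup, ← hqQ])
          refine ⟨Finsupp.single q 1, ?_⟩
          rw [LinearMap.comp_apply]
          congr 1
          simp only [Θ₀, Finsupp.linearCombination_single, one_smul, θ₀, dif_pos hgood, hupq]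
      have h2 : Finsupp.single Q a = a • Finsupp.single Q (1 : ℚ) := by simp
      rw [h2, map_smul]
      exact Submodule.smul_mem _ _ h1
  obtain ⟨x, hx⟩ := hrange y
  exact ⟨(ConeRel w J c).mkQ x, by rw [← hx]; rfl⟩

end Pool.Agent.Helper41.PP
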