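import Pool.Agent.Helper41.PP.Opt
import Pool.Agent.Helper41.PP.Surj

/-!
The substitution `t = - F / G`.

`psi F G : MvPolynomial (Option σ) κ → Localization.Away G` sends `X (some i)` to `X i` and
`X none` to `- F / G`; `Q0 F G q` is the preimage of the extension of `q`.

PROOFS. `psi_rn`, `psi_gen`: direct. `psi_red`: the set of `h` with this property is closed under sums
(multiply by powers of `rn G`), products, and contains `C a`, `X (some i)` (`N = 0`) and `X none`
(`N = 1`, `a = - F`): `MvPolynomial.induction_on`.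
`Q0_prime`: the extension of `q` to the localisation is prime as `G ^ n ∉ q`
(`IsLocalization.isPrime_of_isPrime_disjoint`), preimages of primes are prime. `Q0_comap`:
contraction of the extension is `q`. `Q0_unique`: let `h` be given, `N`, `a` from `psi_red`; `rn G ^ N * h -
rn a ∈ 𝔮`, and in `Q0 F G q'` too, so `h ∈ 𝔮` iff `rn a ∈ 𝔮` iff `a ∈ q' = 𝔮.comap rn` iff
`h ∈ Q0 F G q'` (`Q0_comap`; `rn G` is in neither).
`Q0_homog`: let `𝔮` be the prime of `homId_core` for `Q0 F G q`; it contains `rn F + X none * rn G` (which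
is homogeneous of degree `m` for `ow w`) and not `rn G`; its contraction is `q` (`q` is homogeneous,
its homogeneous elements `a` have `rn a` homogeneous, in `Q0`, so in `𝔮`); by `Q0_unique`
`𝔮 = Q0 F G q`.
`Q0_height`: `rn_height`; `Q0 F G q ≠ q.map rn` because `rn F + X none * rn G ∈ q.map rn` would give
(coefficient of `X none`) `G ∈ q`.
`Q0_mult`: `mult_surj` with `ι = rn`, `ρ` the composite of `psi F G` and
`Localization.Away G → Localization.AtPrime q` (`IsLocalization.Away.lift`, `G ∉ q`); the extension of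
`p` (and of `q`) to `Localization.AtPrime q` contracts in `Localization.Away G` to the extension of
`p` (a prime, disjoint): `x = a / G ^ n`, `ρ x ∈ p Aq` iff `a ∈ p`.
-/

namespace Pool.Agent.Helper41.PP

open MvPolynomial

noncomputable section

variable {σ κ : Type} [Field κ]

/-- The substitution `X none = - F / G`. -/
def psi (F G : MvPolynomial σ κ) : MvPolynomial (Option σ) κ →+* Localization.Away G :=
  eval₂Hom ((algebraMap (MvPolynomial σ κ) (Localization.Away G)).comp C)
    (fun o => o.elim (-(algebraMap (MvPolynomial σ κ) (Localization.Away G) F *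
        IsLocalization.Away.invSelf G))
      (fun i => algebraMap (MvPolynomial σ κ) (Localization.Away G) (X i)))

private theorem rn_apply2 (f : MvPolynomial σ κ) : rn σ κ f = rename Option.some f := rfl

private theorem rn_C (a : κ) : rn σ κ (C a) = C a := by
  rw [rn_apply2, rename_C]

private theorem rn_X (i : σ) : rn σ κ (X i) = X (some i) := by
  rw [rn_apply2, rename_X]

theorem psi_rn (F G a : MvPolynomial σ κ) :
    psi F G (rn σ κ a) = algebraMap (MvPolynomial σ κ) (Localization.Away G) a := by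
  have h : (psi F G).comp (rn σ κ) = algebraMap (MvPolynomial σ κ) (Localization.Away G) := by
    apply MvPolynomial.ringHom_ext
    · intro r
      rw [RingHom.comp_apply, rn_C, psi, eval₂Hom_C]
      rfl
    · intro i
      rw [RingHom.comp_apply, rn_X, psi, eval₂Hom_X']
      rfl
  rw [← h]
  rfl

theorem psi_gen (F G : MvPolynomial σ κ) :
    psi F G (rn σ κ F + X none * rn σ κ G) = 0 := by
  rw [map_add, map_mul, psi_rn, psi_rn]
  have h : psi F G (X none) = -(algebraMap (MvPolynomial σ κ) (Localization.Away G) F *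
        IsLocalization.Away.invSelf G) := by
    rw [psi, eval₂Hom_X']
    rfl
  rw [h, neg_mul, mul_assoc, mul_comm (IsLocalization.Away.invSelf G),
    IsLocalization.Away.mul_invSelf, mul_one, add_neg_cancel]

theorem psi_red (F G : MvPolynomial σ κ) (h : MvPolynomial (Option σ) κ) :
    ∃ (N : ℕ) (a : MvPolynomial σ κ),
      rn σ κ G ^ N * h - rn σ κ a ∈ Ideal.span {rn σ κ F + X none * rn σ κ G} := by
  have hg : rn σ κ F + X none * rn σ κ G ∈ Ideal.span {rn σ κ F + X none * rn σ κ G} :=
    Ideal.subset_span (Set.mem_singleton _)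
  induction h using MvPolynomial.induction_on with
  | C c =>
    refine ⟨0, C c, ?_⟩
    rw [rn_C, pow_zero, one_mul, sub_self]
    exact Ideal.zero_mem _
  | add p q hp hq =>
    obtain ⟨N, a, ha⟩ := hp
    obtain ⟨M, b, hb⟩ := hq
    refine ⟨N + M, G ^ M * a + G ^ N * b, ?_⟩
    have h1 := Ideal.add_mem _ (Ideal.mul_mem_left _ (rn σ κ G ^ M) ha)
      (Ideal.mul_mem_left _ (rn σ κ G ^ N) hb)
    have h2 : rn σ κ G ^ (N + M) * (p + q) - rn σ κ (G ^ M * a + G ^ N * b) =
        rn σ κ G ^ M * (rn σ κ G ^ N * p - rn σ κ a) +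
          rn σ κ G ^ N * (rn σ κ G ^ M * q - rn σ κ b) := by
      rw [map_add, map_mul, map_mul, map_pow, map_pow]
      ring
    rw [h2]
    exact h1
  | mul_X p o hp =>
    obtain ⟨N, a, ha⟩ := hp
    cases o with
    | some i =>
      refine ⟨N, a * X i, ?_⟩
      have h2 : rn σ κ G ^ N * (p * X (some i)) - rn σ κ (a * X i) =
          X (some i) * (rn σ κ G ^ N * p - rn σ κ a) := by
        rw [map_mul, rn_X]
        ring
      rw [h2]
      exact Ideal.mul_mem_left _ _ ha
    | none =>
      refine ⟨N + 1, -(a * F), ?_⟩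
      have h1 := Ideal.add_mem _ (Ideal.mul_mem_left _ (rn σ κ G * X none) ha)
        (Ideal.mul_mem_left _ (rn σ κ a) hg)
      have h2 : rn σ κ G ^ (N + 1) * (p * X none) - rn σ κ (-(a * F)) =
          rn σ κ G * X none * (rn σ κ G ^ N * p - rn σ κ a) +
            rn σ κ a * (rn σ κ F + X none * rn σ κ G) := by
        rw [map_neg, map_mul]
        ring
      rw [h2]
      exact h1

/-- The prime of `X` over `q`, before localisation. -/
def Q0 (F G : MvPolynomial σ κ) (q : Ideal (MvPolynomial σ κ)) :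
    Ideal (MvPolynomial (Option σ) κ) :=
  (q.map (algebraMap (MvPolynomial σ κ) (Localization.Away G))).comap (psi F G)

theorem Q0_mono (F G : MvPolynomial σ κ) (p q : Ideal (MvPolynomial σ κ)) (h : p ≤ q) :
    Q0 F G p ≤ Q0 F G q :=
  Ideal.comap_mono (Ideal.map_mono h)

theorem Q0_gen (F G : MvPolynomial σ κ) (q : Ideal (MvPolynomial σ κ)) :
    rn σ κ F + X none * rn σ κ G ∈ Q0 F G q := by
  rw [Q0, Ideal.mem_comap, psi_gen]
  exact Ideal.zero_mem _

private theorem disj {G : MvPolynomial σ κ} {q : Ideal (MvPolynomial σ κ)} [hq : q.IsPrime]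
    (hG : G ∉ q) : Disjoint (Submonoid.powers G : Set (MvPolynomial σ κ)) (q : Set _) := by
  rw [Set.disjoint_left]
  rintro y ⟨n, rfl⟩ hy
  exact hG (hq.mem_of_pow_mem n hy)

theorem Q0_prime (F G : MvPolynomial σ κ) (q : Ideal (MvPolynomial σ κ)) [q.IsPrime]
    (hG : G ∉ q) : (Q0 F G q).IsPrime := by
  have : (q.map (algebraMap (MvPolynomial σ κ) (Localization.Away G))).IsPrime :=
    IsLocalization.isPrime_of_isPrime_disjoint (Submonoid.powers G) _ q inferInstance (disj hG)
  exact Ideal.comap_isPrime _ _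

theorem Q0_comap (F G : MvPolynomial σ κ) (q : Ideal (MvPolynomial σ κ)) [q.IsPrime]
    (hG : G ∉ q) : (Q0 F G q).comap (rn σ κ) = q := by
  have h1 : (q.map (algebraMap (MvPolynomial σ κ) (Localization.Away G))).comap
      (algebraMap (MvPolynomial σ κ) (Localization.Away G)) = q :=
    IsLocalization.under_map_of_isPrime_disjoint (Submonoid.powers G) _ inferInstance (disj hG)
  ext a
  rw [Ideal.mem_comap, Q0, Ideal.mem_comap, psi_rn, ← Ideal.mem_comap, h1]

private theorem mem_iff {I : Ideal (MvPolynomial (Option σ) κ)} [hI : I.IsPrime]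
    {F G a : MvPolynomial σ κ} {h : MvPolynomial (Option σ) κ} {N : ℕ}
    (h1 : rn σ κ F + X none * rn σ κ G ∈ I) (h2 : rn σ κ G ∉ I)
    (ha : rn σ κ G ^ N * h - rn σ κ a ∈ Ideal.span {rn σ κ F + X none * rn σ κ G}) :
    h ∈ I ↔ a ∈ I.comap (rn σ κ) := by
  have h3 : rn σ κ G ^ N * h - rn σ κ a ∈ I :=
    (Ideal.span_le.2 (Set.singleton_subset_iff.2 h1)) ha
  rw [Ideal.mem_comap]
  constructor
  · intro h4
    have h5 := I.sub_mem (I.mul_mem_left (rn σ κ G ^ N) h4) h3
    rwa [sub_sub_cancel] at h5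
  · intro h4
    have h5 := I.add_mem h3 h4
    rw [sub_add_cancel] at h5
    rcases hI.mem_or_mem h5 with h6 | h6
    · exact absurd (hI.mem_of_pow_mem N h6) h2
    · exact h6

theorem Q0_unique (F G : MvPolynomial σ κ) (Q : Ideal (MvPolynomial (Option σ) κ)) [Q.IsPrime]
    (h1 : rn σ κ F + X none * rn σ κ G ∈ Q) (h2 : rn σ κ G ∉ Q) :
    Q = Q0 F G (Q.comap (rn σ κ)) := by
  have hp : (Q.comap (rn σ κ)).IsPrime := Ideal.comap_isPrime _ _
  have hG : G ∉ Q.comap (rn σ κ) := h2
  have hQ := Q0_prime F G (Q.comap (rn σ κ)) hG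
  have hc := Q0_comap F G (Q.comap (rn σ κ)) hG
  have h3 : rn σ κ G ∉ Q0 F G (Q.comap (rn σ κ)) := by
    intro h
    have h4 : G ∈ (Q0 F G (Q.comap (rn σ κ))).comap (rn σ κ) := h
    rw [hc] at h4
    exact h2 h4
  ext h
  obtain ⟨N, a, ha⟩ := psi_red F G h
  rw [mem_iff h1 h2 ha, mem_iff (Q0_gen F G _) h3 ha, hc]

private theorem rn_hom (w : Option σ → ℕ) (m : ℕ) (F : MvPolynomial σ κ)
    (hF : IsWeightedHomogeneous (fun i => w (some i)) F m) :
    IsWeightedHomogeneous w (rn σ κ F) m := by
  have h1 := rn_comp σ κ w m F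
  rw [hF.weightedHomogeneousComponent_same] at h1
  rw [h1]
  exact weightedHomogeneousComponent_isWeightedHomogeneous m _

theorem Q0_homog (F G : MvPolynomial σ κ) (w : Option σ → ℕ) (hw : w none = 0) (m : ℕ)
    (hF : IsWeightedHomogeneous (fun i => w (some i)) F m)
    (hG : IsWeightedHomogeneous (fun i => w (some i)) G m)
    (q : Ideal (MvPolynomial σ κ)) [q.IsPrime] (hq : HomId (fun i => w (some i)) q)
    (hGq : G ∉ q) : HomId w (Q0 F G q) := by
  have hQ := Q0_prime F G q hGq
  have hc := Q0_comap F G q hGq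
  obtain ⟨R, hRp, hRh, hRle, hR⟩ := homId_core w (Q0 F G q)
  have h1 : rn σ κ F + X none * rn σ κ G ∈ R := by
    apply hR _ m _ (Q0_gen F G q)
    refine (rn_hom w m F hF).add ?_
    have h2 := (isWeightedHomogeneous_X κ w none).mul (rn_hom w m G hG)
    rwa [hw, zero_add] at h2
  have h2 : rn σ κ G ∉ R := by
    intro h
    have h3 : G ∈ (Q0 F G q).comap (rn σ κ) := hRle h
    rw [hc] at h3
    exact hGq h3
  have h3 : R.comap (rn σ κ) = q := by
    apply le_antisymm
    · intro a ha
      have h4 : a ∈ (Q0 F G q).comap (rn σ κ) := hRle ha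
      rwa [hc] at h4
    · apply homId_ext (fun i => w (some i)) q _ hq
      intro f d hf hfq
      apply hR _ d (rn_hom w d f hf)
      have h4 : f ∈ (Q0 F G q).comap (rn σ κ) := by rwa [hc]
      exact h4
  have h4 := Q0_unique F G R h1 h2
  rw [h3] at h4
  rw [← h4]
  exact hRh

/-- The substitution of a constant for the variable `none`. -/
private def cst (c : κ) : MvPolynomial (Option σ) κ →+* MvPolynomial σ κ :=
  eval₂Hom C (fun o => o.elim (C c) X)

private theorem cst_rn (c : κ) (a : MvPolynomial σ κ) : cst c (rn σ κ a) = a := by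
  have h : (cst c).comp (rn σ κ) = RingHom.id (MvPolynomial σ κ) := by
    apply MvPolynomial.ringHom_ext
    · intro r
      rw [RingHom.comp_apply, rn_C, cst, eval₂Hom_C]
      rfl
    · intro i
      rw [RingHom.comp_apply, rn_X, cst, eval₂Hom_X']
      rfl
  exact congrArg (fun φ : MvPolynomial σ κ →+* MvPolynomial σ κ => φ a) h

private theorem cst_X (c : κ) : cst (σ := σ) c (X none) = C c := by
  rw [cst, eval₂Hom_X']
  rfl

private theorem cst_mem (c : κ) (q : Ideal (MvPolynomial σ κ)) {h : MvPolynomial (Option σ) κ}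
    (hh : h ∈ q.map (rn σ κ)) : cst c h ∈ q := by
  have h1 : q.map (rn σ κ) ≤ q.comap (cst c) := by
    rw [Ideal.map_le_iff_le_comap]
    intro a ha
    rw [Ideal.mem_comap, Ideal.mem_comap, cst_rn]
    exact ha
  exact h1 hh

theorem Q0_height [Finite σ] (F G : MvPolynomial σ κ) (q : Ideal (MvPolynomial σ κ))
    [q.IsPrime] (hG : G ∉ q) : (Q0 F G q).height = q.height + 1 := by
  have hQ := Q0_prime F G q hG
  have hc := Q0_comap F G q hG
  have h1 := rn_height σ κ (Q0 F G q) (by
    intro h
    rw [hc] at h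
    have h2 := Q0_gen F G q
    rw [h] at h2
    have h3 := cst_mem 0 q h2
    have h4 := cst_mem 1 q h2
    rw [map_add, map_mul, cst_rn, cst_rn, cst_X] at h3 h4
    rw [C_0, zero_mul, add_zero] at h3
    rw [C_1, one_mul] at h4
    exact hG ((q.add_mem_iff_right h3).1 h4))
  rw [h1, hc]

end

end Pool.Agent.Helper41.PP
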